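import Pool.Agent.GP.Galois2
import Pool.Agent.GP.Bridge

/-!
# `L(ℚ(ζ_{N' p^∞})) ≤ L(ℚ(ζ_{N p^∞}))` for `N' ∣ N`

PROOF (helper91).  `F' := Qinf p N' ≤ F := Qinf p N` (roots of unity).  By `Lmax_eq_adjoin` and
adjoin induction it is enough to treat `z ∈ M`, `M : IntermediateField F' ℂ` unramified abelian of
`p`-power degree.  Let `M₂ : IntermediateField F ℂ := adjoin F (M : Set ℂ)` (`= M F`).  It is
unramified abelian over `F`:
* finite and Galois: `M = F'(θ)`, splitting field of a separable polynomial over `F'`, so `M₂` is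
  the splitting field of the same polynomial over `F` (or base change lemmas in Mathlib for
  `IntermediateField`, e.g. `IsGalois.sup_right`/`IntermediateField.sup_...`, after
  `restrictScalars`/`extendScalars`).
* restriction `Gal(M₂/F) → Gal(M/F')` (`M/F'` is normal) is an injective group homomorphism: an
  automorphism trivial on `M` and on `F` is trivial on `M₂`.  So the group is commutative and its
  order (= degree) divides a power of `p`.
* unramified: `P ⊂ 𝓞 M₂` maximal, `σ` inert at `P`; its restriction to `M` is inert at the comap of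
  `P` to `𝓞 M`, which is maximal (integral extension); so the restriction is trivial and `σ = 1`.
Then `z ∈ M₂ ≤ Lmax p N`.
-/

open IntermediateField NumberField

namespace Pool.Agent.GP

namespace BaseChangeAux

variable {F' F : IntermediateField ℚ ℂ}

theorem exists_res (hle : F' ≤ F) (M : IntermediateField F' ℂ) [Normal F' M]
    [FiniteDimensional F' M] (M₂ : IntermediateField F ℂ) (hsub : ∀ z : ℂ, z ∈ M → z ∈ M₂)
    (σ : M₂ ≃ₐ[F] M₂) :
    ∃ τ : M ≃ₐ[F'] M, ∀ b : M, ((τ b : M) : ℂ) = (σ ⟨b, hsub b b.2⟩ : M₂) := by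
  let f : M →ₐ[F'] ℂ :=
    { toFun := fun b => ((σ ⟨b, hsub b b.2⟩ : M₂) : ℂ)
      map_one' := by
        have h : σ (⟨((1 : M) : ℂ), hsub _ (1 : M).2⟩ : M₂) = 1 := map_one σ
        exact congrArg (fun t : M₂ => (t : ℂ)) h
      map_mul' := fun a b => by
        have h : σ (⟨((a * b : M) : ℂ), hsub _ (a * b).2⟩ : M₂) =
            σ ⟨a, hsub a a.2⟩ * σ ⟨b, hsub b b.2⟩ := by
          rw [← map_mul]
          rfl
        exact congrArg (fun t : M₂ => (t : ℂ)) h
      map_zero' := by
        have h : σ (⟨((0 : M) : ℂ), hsub _ (0 : M).2⟩ : M₂) = 0 := map_zero σ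
        exact congrArg (fun t : M₂ => (t : ℂ)) h
      map_add' := fun a b => by
        have h : σ (⟨((a + b : M) : ℂ), hsub _ (a + b).2⟩ : M₂) =
            σ ⟨a, hsub a a.2⟩ + σ ⟨b, hsub b b.2⟩ := by
          rw [← map_add]
          rfl
        exact congrArg (fun t : M₂ => (t : ℂ)) h
      commutes' := fun r => by
        have h : σ (⟨((algebraMap F' M r : M) : ℂ), hsub _ (algebraMap F' M r).2⟩ : M₂) =
            algebraMap F M₂ ⟨r, hle r.2⟩ := σ.commutes ⟨r, hle r.2⟩
        exact congrArg (fun t : M₂ => (t : ℂ)) h }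
  have hr : f.fieldRange = M := AlgHom.fieldRange_of_normal f
  have hmem : ∀ b : M, f b ∈ M := by
    intro b
    have h2 : f b ∈ f.fieldRange := ⟨b, rfl⟩
    rwa [hr] at h2
  let g : M →ₐ[F'] M := f.codRestrict M.toSubalgebra hmem
  have hg : Function.Bijective g :=
    ⟨g.toRingHom.injective, (LinearMap.injective_iff_surjective (f := g.toLinearMap)).mp
      g.toRingHom.injective⟩
  exact ⟨AlgEquiv.ofBijective g hg, fun b => rfl⟩

/-- inclusion of rings of integers -/
noncomputable def incl (M : IntermediateField F' ℂ) (M₂ : IntermediateField F ℂ)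
    (hsub : ∀ z : ℂ, z ∈ M → z ∈ M₂) : integralClosure ℤ M →ₐ[ℤ] integralClosure ℤ M₂ :=
  AlgHom.mapIntegralClosure
    (RingHom.toIntAlgHom
      { toFun := fun b : M => (⟨b, hsub b b.2⟩ : M₂)
        map_one' := rfl
        map_mul' := fun _ _ => rfl
        map_zero' := rfl
        map_add' := fun _ _ => rfl })

theorem incl_coe (M : IntermediateField F' ℂ) (M₂ : IntermediateField F ℂ)
    (hsub : ∀ z : ℂ, z ∈ M → z ∈ M₂) (x : integralClosure ℤ M) :
    ((incl M M₂ hsub x : integralClosure ℤ M₂) : M₂) = ⟨(x : M), hsub _ (x : M).2⟩ := rfl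

theorem incl_integral (M : IntermediateField F' ℂ) (M₂ : IntermediateField F ℂ)
    (hsub : ∀ z : ℂ, z ∈ M → z ∈ M₂) : (incl M M₂ hsub).toRingHom.IsIntegral := by
  have h : ((incl M M₂ hsub).toRingHom.comp (algebraMap ℤ (integralClosure ℤ M))).IsIntegral := by
    have e : (incl M M₂ hsub).toRingHom.comp (algebraMap ℤ (integralClosure ℤ M)) =
        algebraMap ℤ (integralClosure ℤ M₂) := RingHom.ext_int _ _
    rw [e]
    exact fun x => Algebra.IsIntegral.isIntegral x
  exact RingHom.IsIntegral.tower_top _ _ h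

theorem base_change {p : ℕ} (hp : p.Prime) (hle : F' ≤ F) (M : IntermediateField F' ℂ)
    (hM : IsUnramifiedAbelianP p M) :
    ∃ M₂ : IntermediateField F ℂ, IsUnramifiedAbelianP p M₂ ∧ ∀ z : ℂ, z ∈ M → z ∈ M₂ := by
  have hfin := hM.finite
  have hgal := hM.galois
  let _ : Algebra F' F := (IntermediateField.inclusion hle).toAlgebra
  have htow : IsScalarTower F' F ℂ := IsScalarTower.of_algebraMap_eq fun x => rfl
  obtain ⟨q, hq1, hq2⟩ := IsGalois.is_separable_splitting_field F' M
  have hMq : M = IntermediateField.adjoin F' (q.rootSet ℂ) :=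
    (IntermediateField.isSplittingField_iff.1 hq2).2
  set q' : Polynomial F := q.map (algebraMap F' F) with hq'
  have hq'sep : q'.Separable := hq1.map
  have hq'spl : (q'.map (algebraMap F ℂ)).Splits := IsAlgClosed.splits _
  set M₂ : IntermediateField F ℂ := IntermediateField.adjoin F (q'.rootSet ℂ) with hM₂
  have hq0 : q ≠ 0 := hq1.ne_zero
  have hq'0 : q' ≠ 0 := hq'sep.ne_zero
  have hroots : ∀ z : ℂ, z ∈ q'.rootSet ℂ ↔ z ∈ q.rootSet ℂ := by
    intro z
    rw [Polynomial.mem_rootSet, Polynomial.mem_rootSet, hq', Polynomial.aeval_map_algebraMap]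
    exact ⟨fun h => ⟨hq0, h.2⟩, fun h => ⟨hq'0, h.2⟩⟩
  have hspl2 : q'.IsSplittingField F M₂ := IntermediateField.adjoin_rootSet_isSplittingField hq'spl
  have hfin2 : FiniteDimensional F M₂ := Polynomial.IsSplittingField.finiteDimensional M₂ q'
  have hgal2 : IsGalois F M₂ := IsGalois.of_separable_splitting_field hq'sep
  have hsub : ∀ z : ℂ, z ∈ M → z ∈ M₂ := by
    intro z hz
    rw [hMq] at hz
    induction hz using IntermediateField.adjoin_induction with
    | mem x hx => exact IntermediateField.subset_adjoin _ _ ((hroots x).2 hx)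
    | algebraMap x => exact M₂.algebraMap_mem ⟨x, hle x.2⟩
    | add x y hx hy ihx ihy => exact add_mem ihx ihy
    | inv x hx ih => exact inv_mem ih
    | mul x y hx hy ihx ihy => exact mul_mem ihx ihy
  -- extensionality on `M`
  have hext : ∀ σ τ : M₂ ≃ₐ[F] M₂,
      (∀ b : M, σ ⟨b, hsub b b.2⟩ = τ ⟨b, hsub b b.2⟩) → σ = τ := by
    intro σ τ h
    have h2 : (M₂.val.comp (σ : M₂ →ₐ[F] M₂)) = (M₂.val.comp (τ : M₂ →ₐ[F] M₂)) := by
      refine IntermediateField.adjoin_algHom_ext F ?_
      intro x hx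
      have hxM : x ∈ M := by
        rw [hMq]
        exact IntermediateField.subset_adjoin _ _ ((hroots x).1 hx)
      exact congrArg (fun t : M₂ => (t : ℂ)) (h ⟨x, hxM⟩)
    apply AlgEquiv.ext
    intro y
    exact Subtype.ext (DFunLike.congr_fun h2 y)
  choose res hres using fun σ : M₂ ≃ₐ[F] M₂ => exists_res hle M M₂ hsub σ
  have hres' : ∀ (σ : M₂ ≃ₐ[F] M₂) (b : M),
      σ ⟨b, hsub b b.2⟩ = ⟨(res σ b : M), hsub _ (res σ b).2⟩ :=
    fun σ b => Subtype.ext (hres σ b).symm
  have hmul : ∀ σ τ : M₂ ≃ₐ[F] M₂, res (σ * τ) = res σ * res τ := by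
    intro σ τ
    apply AlgEquiv.ext
    intro b
    apply Subtype.ext
    rw [hres, AlgEquiv.mul_apply, AlgEquiv.mul_apply, hres' τ b, hres σ (res τ b)]
  have hinj : Function.Injective res := by
    intro σ τ h
    refine hext σ τ fun b => ?_
    rw [hres', hres', h]
  refine ⟨M₂, ⟨hfin2, hgal2, ?_, ?_, ?_⟩, hsub⟩
  · intro σ τ
    apply hinj
    rw [hmul, hmul, hM.comm]
  · obtain ⟨n, hn⟩ := hM.degree
    let φ : (M₂ ≃ₐ[F] M₂) →* (M ≃ₐ[F'] M) := MonoidHom.mk' res hmul
    have h1 : Nat.card (M₂ ≃ₐ[F] M₂) ∣ Nat.card (M ≃ₐ[F'] M) :=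
      Subgroup.card_dvd_of_injective φ hinj
    rw [IsGalois.card_aut_eq_finrank, IsGalois.card_aut_eq_finrank, hn] at h1
    obtain ⟨k, _, hk⟩ := (Nat.dvd_prime_pow hp).1 h1
    exact ⟨k, hk⟩
  · intro P hP σ hσ
    have hmax : (P.comap (incl M M₂ hsub).toRingHom).IsMaximal :=
      Ideal.isMaximal_comap_of_isIntegral_of_isMaximal' _ (incl_integral M M₂ hsub) P
    have h1 : res σ = 1 := by
      refine hM.unram _ hmax (res σ) ?_
      intro x y hxy
      rw [Ideal.mem_comap]
      have h2 := hσ (incl M M₂ hsub x) (incl M M₂ hsub y) ?_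
      · change incl M M₂ hsub (y - x) ∈ P
        rw [map_sub]
        exact h2
      · rw [incl_coe, incl_coe]
        apply Subtype.ext
        change ((y : M) : ℂ) = _
        rw [hxy, hres]
    apply hinj
    rw [h1]
    apply AlgEquiv.ext
    intro b
    apply Subtype.ext
    rw [hres]
    rfl

end BaseChangeAux

theorem Lmax_mono {p N N' : ℕ} (hp : p.Prime) (hN : 0 < N) (h : N' ∣ N) {z : ℂ}
    (hz : z ∈ Lmax p N') : z ∈ Lmax p N := by
  have hle : Qinf p N' ≤ Qinf p N := by
    rw [Qinf_eq_iSup]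
    exact iSup_le fun m => (lev_mono (Nat.mul_dvd_mul_right h _)).trans (lev_le_Qinf p N m)
  rw [Lmax_eq_adjoin] at hz
  induction hz using IntermediateField.adjoin_induction with
  | mem x hx =>
    obtain ⟨M, hM, hxM⟩ := hx
    obtain ⟨M₂, hM₂, hsub⟩ := BaseChangeAux.base_change hp hle M hM
    exact le_Lmax hM₂ (hsub x hxM)
  | algebraMap x => exact (Lmax p N).algebraMap_mem ⟨x, hle x.2⟩
  | add x y hx hy ihx ihy => exact add_mem ihx ihy
  | inv x hx ih => exact inv_mem ih
  | mul x y hx hy ihx ihy => exact mul_mem ihx ihy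

end Pool.Agent.GP
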