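import Mathlib
import Pool.Agent.GP.Statement

/-!
# Lifting elements of inertia groups
-/

open NumberField
open scoped Pointwise

namespace Pool.Agent.GP

/-- If the profinite group `G` acts continuously on `B` with ring of invariants `A`, then every
automorphism of `B` inducing on `A` an automorphism which is trivial modulo `P ∩ A` becomes trivial
modulo `P` after multiplication with an element of `G`. -/
theorem inert_lift_ring {A B G : Type} [CommRing A] [CommRing B] [Algebra A B] [Group G]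
    [MulSemiringAction G B] [SMulCommClass G A B] [TopologicalSpace G] [CompactSpace G]
    [TotallyDisconnectedSpace G] [IsTopologicalGroup G] [TopologicalSpace B] [DiscreteTopology B]
    [ContinuousSMul G B] [Algebra.IsInvariant A B G] (P : Ideal B) [P.IsPrime] (τ : B ≃+* B)
    (σ : A ≃+* A) (hτ : ∀ a, τ (algebraMap A B a) = algebraMap A B (σ a))
    (hσ : ∀ a, σ a - a ∈ P.under A) : ∃ g : G, ∀ x : B, g • τ x - x ∈ P := by
  have hτ' : ∀ a, τ.symm (algebraMap A B a) = algebraMap A B (σ.symm a) := by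
    intro a
    rw [RingEquiv.symm_apply_eq, hτ, RingEquiv.apply_symm_apply]
  let Q : Ideal B := P.comap (τ.symm : B →+* B)
  have hQ : Q.IsPrime := Ideal.comap_isPrime _ _
  have hunder : Q.under A = P.under A := by
    ext a
    change τ.symm (algebraMap A B a) ∈ P ↔ algebraMap A B a ∈ P
    rw [hτ']
    have h1 : algebraMap A B a - algebraMap A B (σ.symm a) ∈ P := by
      have := hσ (σ.symm a)
      rw [RingEquiv.apply_symm_apply] at this
      rw [← map_sub]
      exact this
    constructor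
    · intro h
      have := P.add_mem h1 h
      rwa [sub_add_cancel] at this
    · intro h
      have := P.sub_mem h h1
      rwa [sub_sub_cancel] at this
  obtain ⟨g, hg⟩ := Algebra.IsInvariant.exists_smul_of_under_eq_of_profinite (G := G) Q P hunder
  let μ : B ≃+* B := τ.trans (MulSemiringAction.toRingEquiv G B g)
  have hμ : ∀ x, μ x = g • τ x := fun x => rfl
  have hμP : P = P.map (μ : B →+* B) := by
    have h2 : P.map (μ : B →+* B) = P.comap (μ.symm : B →+* B) :=
      Ideal.map_comap_of_equiv μ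
    rw [h2]
    ext x
    change x ∈ P ↔ τ.symm (g⁻¹ • x) ∈ P
    conv_lhs => rw [hg]
    rw [Ideal.mem_pointwise_smul_iff_inv_smul_mem]
    rfl
  let e : (B ⧸ P) ≃ₐ[A ⧸ P.under A] (B ⧸ P) :=
    { Ideal.quotientEquiv P P μ hμP with
      commutes' := by
        intro a
        obtain ⟨a, rfl⟩ := Ideal.Quotient.mk_surjective a
        change Ideal.Quotient.mk P (g • τ (algebraMap A B a)) =
          Ideal.Quotient.mk P (algebraMap A B a)
        rw [hτ, smul_algebraMap, Ideal.Quotient.eq, ← map_sub]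
        exact hσ a }
  obtain ⟨g', hg'⟩ := Ideal.Quotient.stabilizerHom_surjective_of_profinite (G := G)
    (P.under A) P e
  refine ⟨(g' : G)⁻¹ * g, fun x => ?_⟩
  have h3 : Ideal.Quotient.mk P ((g' : G) • x) = Ideal.Quotient.mk P (g • τ x) :=
    DFunLike.congr_fun hg' (Ideal.Quotient.mk P x)
  rw [Ideal.Quotient.eq] at h3
  have h4 := P.neg_mem h3
  rw [neg_sub] at h4
  have h5 : (g' : G)⁻¹ • (g • τ x - (g' : G) • x) ∈ P := by
    have h6 : (g' : G) • P = P := g'.2
    rw [← Ideal.mem_pointwise_smul_iff_inv_smul_mem, h6]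
    exact h4
  rwa [smul_sub, inv_smul_smul, smul_smul] at h5

section

variable {E L : Type} [Field E] [Field L] [Algebra E L]

theorem isInvariant_int [IsGalois E L] : Algebra.IsInvariant (𝓞 E) (𝓞 L) (L ≃ₐ[E] L) where
  isInvariant x hx := by
    have h1 : ∀ g : L ≃ₐ[E] L, g (x : L) = x := by
      intro g
      have := congrArg (fun t : 𝓞 L => (t : L)) (hx g)
      exact this
    obtain ⟨y, hy⟩ := (InfiniteGalois.mem_range_algebraMap_iff_fixed (x : L)).mpr h1
    have hyi : IsIntegral ℤ y := by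
      rw [← isIntegral_algebraMap_iff (algebraMap E L).injective, hy]
      exact x.2
    exact ⟨⟨y, hyi⟩, RingOfIntegers.ext hy⟩

theorem isIntegral_int : Algebra.IsIntegral (𝓞 E) (𝓞 L) := by
  have : Algebra.IsIntegral ℤ (𝓞 L) := inferInstance
  exact Algebra.IsIntegral.tower_top (R := ℤ)

end

theorem exists_inert_lift {E L : Type} [Field E] [Field L] [CharZero E] [CharZero L] [Algebra E L]
    [IsGalois ℚ L] (σ : E ≃ₐ[ℚ] E) (P' : Ideal (𝓞 E)) (hP' : P'.IsMaximal) (hσ : Inert P' σ) :
    ∃ (P : Ideal (𝓞 L)) (ρ : L ≃ₐ[ℚ] L), P.IsMaximal ∧ Inert P ρ ∧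
      ∀ y : E, ρ (algebraMap E L y) = algebraMap E L (σ y) := by
  have hgal : IsGalois E L := IsGalois.tower_top_of_isGalois ℚ E L
  have hint : Algebra.IsIntegral (𝓞 E) (𝓞 L) := isIntegral_int
  have hinv : Algebra.IsInvariant (𝓞 E) (𝓞 L) (L ≃ₐ[E] L) := isInvariant_int
  obtain ⟨P, -, hPp, hPc⟩ := Ideal.exists_ideal_over_prime_of_isIntegral P' (⊥ : Ideal (𝓞 L))
    (by
      rw [← RingHom.ker_eq_comap_bot, (RingHom.injective_iff_ker_eq_bot _).mp
        (RingOfIntegers.algebraMap.injective E L)]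
      exact bot_le)
  have hPm : P.IsMaximal := Ideal.isMaximal_of_isIntegral_of_isMaximal_comap P (by rwa [hPc])
  let σ' : 𝓞 E ≃+* 𝓞 E := RingOfIntegers.mapRingEquiv (σ : E ≃+* E)
  let τ : L ≃ₐ[ℚ] L := σ.liftNormal L
  let τ' : 𝓞 L ≃+* 𝓞 L := RingOfIntegers.mapRingEquiv (τ : L ≃+* L)
  let _ : TopologicalSpace (𝓞 L) := ⊥
  have : DiscreteTopology (𝓞 L) := ⟨rfl⟩
  have : SMulCommClass (L ≃ₐ[E] L) (𝓞 E) (𝓞 L) := ⟨fun g a x => by
    apply RingOfIntegers.ext
    rw [Algebra.smul_def, Algebra.smul_def]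
    change g (algebraMap E L (a : E) * (x : L)) = algebraMap E L (a : E) * g (x : L)
    rw [map_mul, g.commutes]⟩
  have : ContinuousSMul (L ≃ₐ[E] L) (𝓞 L) := by
    rw [continuousSMul_iff_stabilizer_isOpen]
    intro x
    have h1 := stabilizer_isOpen_of_isIntegral (K := E) (x : L)
    convert h1 using 2
    ext g
    exact ⟨fun h => congrArg (fun t : 𝓞 L => (t : L)) h, fun h => RingOfIntegers.ext h⟩
  obtain ⟨g, hg⟩ := inert_lift_ring (A := 𝓞 E) (B := 𝓞 L) (G := L ≃ₐ[E] L) P τ' σ'
    (fun a => RingOfIntegers.ext (σ.liftNormal_commutes L (a : E)))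
    (fun a => by
      change σ' a - a ∈ P.comap (algebraMap (𝓞 E) (𝓞 L))
      rw [hPc]
      exact hσ a (σ' a) rfl)
  refine ⟨P, τ.trans (g.restrictScalars ℚ), hPm, ?_, ?_⟩
  · intro x y hxy
    have h1 : y = g • τ' x := RingOfIntegers.ext hxy
    rw [h1]
    exact hg x
  · intro y
    change g (τ (algebraMap E L y)) = _
    rw [show τ (algebraMap E L y) = algebraMap E L (σ y) from σ.liftNormal_commutes L y,
      g.commutes]

end Pool.Agent.GP
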