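import Pool.Agent.GP.Galois2
import Pool.Agent.GP.Bridge

/-!
# The inertia groups of `L / ℚ_∞` are trivial

PROOFS (helper91).
1. `Inert.pow`: induction on `n`; `σ^(n+1) x - x = (σ (σ^n x) - σ^n x) + (σ^n x - x)`, where
   `σ^n x` is an algebraic integer (`RingOfIntegers.mapAlgEquiv`/`IsIntegral.map`).
2. `Lmax_inert_eq_one`: by `Lmax_hom_ext` (Galois.lean) it is enough to show `x z = z` for `z ∈ M`,
   `M` unramified abelian.  `exists_restrict hM x` gives `τ : M ≃ M`, `τ b = x b`.  Let `P'` be the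
   comap of `P` under `𝓞 M → 𝓞 L` (`RingOfIntegers.mapRingHom` of the inclusion); it is maximal
   (`𝓞 L` is integral over `ℤ`, hence over `𝓞 M`: `Ideal.isMaximal_comap_of_isIntegral_of_isMaximal`).
   `τ` is inert at `P'`, so `τ = 1` by `hM.unram` (`UnramifiedEverywhere`, Defs.lean; `𝓞 M` is
   `integralClosure ℤ M` definitionally, cf. `Bridge.lean`).
-/

open IntermediateField NumberField

namespace Pool.Agent.GP

theorem Inert.pow {F M : Type} [Field F] [Field M] [Algebra F M] {P : Ideal (𝓞 M)}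
    {σ : M ≃ₐ[F] M} (h : Inert P σ) (n : ℕ) : Inert P (σ ^ n) := by
  induction n with
  | zero =>
    intro x y hxy
    have h1 : y = x := by
      ext
      rw [hxy, pow_zero]
      rfl
    rw [h1, sub_self]
    exact P.zero_mem
  | succ n ih =>
    intro x y hxy
    have hint : IsIntegral ℤ ((σ ^ n) (x : M)) :=
      (RingOfIntegers.isIntegral_coe x).map ((σ ^ n : M ≃ₐ[F] M) : M →+* M).toIntAlgHom
    let z : 𝓞 M := ⟨(σ ^ n) (x : M), hint⟩
    have h1 : z - x ∈ P := ih x z rfl
    have h2 : y - z ∈ P := by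
      apply h z y
      rw [hxy, pow_succ']
      rfl
    have h3 : y - x = (y - z) + (z - x) := by ring
    rw [h3]
    exact P.add_mem h2 h1

theorem Lmax_inert_eq_one {p N : ℕ} (x : Lmax p N ≃ₐ[Qinf p N] Lmax p N)
    (P : Ideal (𝓞 (Lmax p N))) (hP : P.IsMaximal) (h : Inert P x) : x = 1 := by
  have key : ((Lmax p N).val.comp (x : Lmax p N →ₐ[Qinf p N] Lmax p N)) = (Lmax p N).val := by
    apply Lmax_hom_ext
    intro M hM z hz
    obtain ⟨τ, hτ⟩ := exists_restrict hM x
    let f : M →+* Lmax p N := (IntermediateField.inclusion (le_Lmax hM)).toRingHom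
    let g : 𝓞 M →+* 𝓞 (Lmax p N) := RingOfIntegers.mapRingHom f
    have hg : g.IsIntegral := by
      intro y
      have h1 : IsIntegral ℤ y := RingOfIntegers.isIntegral y
      obtain ⟨q, hq, hq0⟩ := h1
      refine ⟨q.map (Int.castRingHom (𝓞 M)), hq.map _, ?_⟩
      rw [Polynomial.eval₂_map]
      rw [← hq0]
      congr 1
    have hP' : (P.comap g).IsMaximal := Ideal.isMaximal_comap_of_isIntegral_of_isMaximal' g hg P
    have hin : Inert (P.comap g) τ := by
      intro a b hab
      rw [Ideal.mem_comap, map_sub]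
      apply h
      apply Subtype.ext
      have h1 := hτ (a : M)
      rw [← hab] at h1
      exact h1
    have hτ1 : τ = 1 := hM.unram (P.comap g) hP' τ hin
    have h1 := hτ ⟨z, hz⟩
    rw [hτ1] at h1
    exact h1.symm
  ext y
  have h1 := DFunLike.congr_fun key y
  exact h1

end Pool.Agent.GP
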