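import Pool.Agent.GP.Galois2
import Pool.Agent.GP.Bridge

/-!
# Kummer extensions `F'(β)`, `β ^ (p ^ s) ∈ F'`, of `F' = ℚ(ζ_{N' p^∞})`

PROOFS (helper91).  `F' = Qinf p N'` contains all `z` with `z ^ (p ^ s) = 1` (`root_mem_Qinf`).
1. `kummer_pow_eq_one`: if `β = 0` the extension is trivial.  Otherwise `σ β = ζ β` with
   `ζ ^ (p ^ s) = 1`, `ζ ∈ F'`, so `σ^n β = ζ^n β`, `σ ^ (p ^ s)` fixes the generator `β`.
2. finite: `β` is a root of `X ^ (p ^ s) - b`.  Galois: this polynomial splits over `F'(β)`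
   (all roots are `ζ β`), it is separable for `b ≠ 0` (char 0: `IsGalois` = normal), e.g.
   `isGalois_of_...`/`IsGalois.of_separable_splitting_field` or `Normal` of a splitting field.
   Commutative: `σ τ β = ζ_σ ζ_τ β`.  Degree: `Gal` is a `p`-group by 1 (`IsPGroup`,
   `IsPGroup.iff_card`), and `IsGalois.card_aut_eq_finrank`.
-/

open IntermediateField NumberField

namespace Pool.Agent.GP

namespace KummerExtAux

/-- the generator as an element of the extension -/
noncomputable def gn (p N' : ℕ) (β : ℂ) : IntermediateField.adjoin (Qinf p N') {β} :=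
  ⟨β, IntermediateField.subset_adjoin _ _ (Set.mem_singleton β)⟩

theorem gn_pow {p N' : ℕ} {β : ℂ} {s : ℕ} (hβ : β ^ (p ^ s) ∈ Qinf p N') :
    gn p N' β ^ (p ^ s) =
      algebraMap (Qinf p N') (IntermediateField.adjoin (Qinf p N') {β}) ⟨β ^ (p ^ s), hβ⟩ :=
  rfl

theorem ext_gn {p N' : ℕ} {β : ℂ}
    {σ τ : IntermediateField.adjoin (Qinf p N') {β} ≃ₐ[Qinf p N']
      IntermediateField.adjoin (Qinf p N') {β}} (h : σ (gn p N' β) = τ (gn p N' β)) : σ = τ := by
  have h1 : (σ : IntermediateField.adjoin (Qinf p N') {β} →ₐ[Qinf p N']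
      IntermediateField.adjoin (Qinf p N') {β}) = τ := by
    apply IntermediateField.algHom_ext_of_eq_adjoin (Qinf p N') (s := {β}) rfl
    rintro x hx
    rw [Set.mem_singleton_iff] at hx
    subst hx
    exact h
  ext x
  exact congrArg Subtype.val (DFunLike.congr_fun h1 x)

theorem exists_root {p N' : ℕ} {β : ℂ} {s : ℕ} (hβ : β ^ (p ^ s) ∈ Qinf p N')
    (σ : IntermediateField.adjoin (Qinf p N') {β} ≃ₐ[Qinf p N']
      IntermediateField.adjoin (Qinf p N') {β}) :
    ∃ ζ : Qinf p N', ζ ^ (p ^ s) = 1 ∧ σ (gn p N' β) = ζ • gn p N' β := by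
  by_cases hb : gn p N' β = 0
  · exact ⟨1, one_pow _, by rw [hb, map_zero, smul_zero]⟩
  have h1 : σ (gn p N' β) ^ (p ^ s) = gn p N' β ^ (p ^ s) := by
    rw [← map_pow, gn_pow hβ, AlgEquiv.commutes]
  have h2 : (σ (gn p N' β) / gn p N' β) ^ (p ^ s) = 1 := by
    rw [div_pow, h1, div_self (pow_ne_zero _ hb)]
  have h3 : (((σ (gn p N' β) / gn p N' β :
      IntermediateField.adjoin (Qinf p N') {β}) : ℂ)) ^ (p ^ s) = 1 :=
    congrArg Subtype.val h2
  refine ⟨⟨_, root_mem_Qinf s h3⟩, Subtype.ext h3, ?_⟩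
  have h4 : σ (gn p N' β) = (σ (gn p N' β) / gn p N' β) * gn p N' β := by
    rw [div_mul_cancel₀ _ hb]
  exact h4

theorem sm {p N' : ℕ} {β : ℂ}
    (σ : IntermediateField.adjoin (Qinf p N') {β} ≃ₐ[Qinf p N']
      IntermediateField.adjoin (Qinf p N') {β}) (ζ : Qinf p N')
    (x : IntermediateField.adjoin (Qinf p N') {β}) : σ (ζ • x) = ζ • σ x := by
  rw [Algebra.smul_def, map_mul, AlgEquiv.commutes, ← Algebra.smul_def]

theorem pow_gn {p N' : ℕ} {β : ℂ}
    {σ : IntermediateField.adjoin (Qinf p N') {β} ≃ₐ[Qinf p N']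
      IntermediateField.adjoin (Qinf p N') {β}} {ζ : Qinf p N'}
    (h : σ (gn p N' β) = ζ • gn p N' β) (n : ℕ) :
    (σ ^ n) (gn p N' β) = ζ ^ n • gn p N' β := by
  induction n with
  | zero => rw [pow_zero, pow_zero, one_smul]; rfl
  | succ n ih =>
    rw [pow_succ, AlgEquiv.mul_apply, h, sm, ih, smul_smul, ← pow_succ']

theorem finite {p N' : ℕ} (hp : p.Prime) {β : ℂ} {s : ℕ} (hβ : β ^ (p ^ s) ∈ Qinf p N') :
    FiniteDimensional (Qinf p N') (IntermediateField.adjoin (Qinf p N') {β}) := by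
  apply IntermediateField.adjoin.finiteDimensional
  apply IsIntegral.of_pow (pow_pos hp.pos s)
  exact isIntegral_algebraMap (R := Qinf p N') (x := ⟨_, hβ⟩)

theorem galois {p N' : ℕ} (hp : p.Prime) {β : ℂ} {s : ℕ} (hβ : β ^ (p ^ s) ∈ Qinf p N') :
    IsGalois (Qinf p N') (IntermediateField.adjoin (Qinf p N') {β}) := by
  have := finite hp hβ
  have hpn : p ^ s ≠ 0 := (pow_pos hp.pos s).ne'
  have hz := Complex.isPrimitiveRoot_exp (p ^ s) hpn
  have hmem : Complex.exp (2 * Real.pi * Complex.I / ((p ^ s : ℕ) : ℂ)) ∈ Qinf p N' :=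
    root_mem_Qinf s hz.pow_eq_one
  have hζ : IsPrimitiveRoot
      (⟨Complex.exp (2 * Real.pi * Complex.I / ((p ^ s : ℕ) : ℂ)), hmem⟩ : Qinf p N') (p ^ s) :=
    IsPrimitiveRoot.of_map_of_injective (f := (Qinf p N').val) hz
      (Subtype.val_injective)
  have hζ2 := hζ.map_of_injective
    (algebraMap (Qinf p N') (IntermediateField.adjoin (Qinf p N') {β})).injective
  set q : Polynomial (Qinf p N') := Polynomial.X ^ (p ^ s) - Polynomial.C ⟨_, hβ⟩ with hq
  have hmap : q.map (algebraMap (Qinf p N') (IntermediateField.adjoin (Qinf p N') {β})) =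
      Polynomial.X ^ (p ^ s) - Polynomial.C (algebraMap (Qinf p N')
        (IntermediateField.adjoin (Qinf p N') {β}) ⟨_, hβ⟩) := by
    rw [hq, Polynomial.map_sub, Polynomial.map_pow, Polynomial.map_X, Polynomial.map_C]
  have hsp : q.IsSplittingField (Qinf p N') (IntermediateField.adjoin (Qinf p N') {β}) := by
    rw [isSplittingField_iff_intermediateField]
    constructor
    · rw [hmap]
      exact X_pow_sub_C_splits_of_isPrimitiveRoot hζ2 (gn_pow hβ)
    · apply IntermediateField.lift_injective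
      rw [IntermediateField.lift_top, IntermediateField.lift_adjoin]
      apply le_antisymm
      · rw [IntermediateField.adjoin_le_iff]
        rintro _ ⟨x, _, rfl⟩
        exact x.2
      · rw [IntermediateField.adjoin_le_iff, Set.singleton_subset_iff]
        apply IntermediateField.subset_adjoin
        refine ⟨gn p N' β, ?_, rfl⟩
        have hq0 : q ≠ 0 := (Polynomial.monic_X_pow_sub_C _ hpn).ne_zero
        rw [Polynomial.mem_rootSet]
        refine ⟨hq0, ?_⟩
        rw [hq, map_sub, map_pow, Polynomial.aeval_X, Polynomial.aeval_C, gn_pow hβ, sub_self]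
  have := Normal.of_isSplittingField q (E := IntermediateField.adjoin (Qinf p N') {β})
  exact ⟨⟩

end KummerExtAux

open KummerExtAux

theorem kummer_pow_eq_one {p N' : ℕ} (hp : p.Prime) {β : ℂ} {s : ℕ}
    (hβ : β ^ (p ^ s) ∈ Qinf p N')
    (σ : IntermediateField.adjoin (Qinf p N') {β} ≃ₐ[Qinf p N']
      IntermediateField.adjoin (Qinf p N') {β}) : σ ^ (p ^ s) = 1 := by
  have _ := hp
  obtain ⟨ζ, h1, h2⟩ := exists_root hβ σ
  apply ext_gn
  rw [pow_gn h2, h1, one_smul]
  rfl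

theorem kummer_isUnramifiedAbelianP {p N' : ℕ} (hp : p.Prime) {β : ℂ} {s : ℕ}
    (hβ : β ^ (p ^ s) ∈ Qinf p N')
    (hun : UnramifiedEverywhere (IntermediateField.adjoin (Qinf p N') {β})) :
    IsUnramifiedAbelianP p (IntermediateField.adjoin (Qinf p N') {β}) := by
  have hfin := finite hp hβ
  have hgal := galois hp hβ
  refine ⟨hfin, hgal, ?_, ?_, hun⟩
  · intro σ τ
    obtain ⟨ζ, -, h2⟩ := exists_root hβ σ
    obtain ⟨η, -, h3⟩ := exists_root hβ τ
    apply ext_gn
    rw [AlgEquiv.mul_apply, AlgEquiv.mul_apply, h2, h3, sm, sm, h2, h3, smul_smul,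
      smul_smul, mul_comm]
  · have hpf : Fact p.Prime := ⟨hp⟩
    rw [← IsGalois.card_aut_eq_finrank, ← IsPGroup.iff_card]
    exact fun σ => ⟨s, kummer_pow_eq_one hp hβ σ⟩

end Pool.Agent.GP
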