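import Pool.Agent.GP.Galois2

/-!
# Automorphisms fixing `ℚ(ζ_{N' p^∞})`, where `N` and `N'` have the same prime divisors
-/

open IntermediateField NumberField

namespace Pool.Agent.GP

theorem mul_dvd_pow_sub_one (n : ℕ) : ∀ (x m : ℤ),
    (∀ l : ℕ, l.Prime → l ∣ n → (l : ℤ) ∣ x - 1) → m ∣ x - 1 → m * n ∣ x ^ n - 1 := by
  induction n using Nat.recOnMul with
  | zero => intro x m _ _; simp
  | one => intro x m _ h; simpa using h
  | prime l hl =>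
    intro x m h1 h2
    have h3 := h1 l hl dvd_rfl
    rw [← mul_geom_sum]
    refine mul_dvd_mul h2 ?_
    have h4 : (∑ i ∈ Finset.range l, x ^ i) = (∑ i ∈ Finset.range l, (x ^ i - 1)) + l := by
      rw [Finset.sum_sub_distrib]
      simp
    rw [h4]
    refine dvd_add (Finset.dvd_sum fun i _ => h3.trans ?_) dvd_rfl
    simpa using sub_dvd_pow_sub_pow x 1 i
  | mul a b iha ihb =>
    intro x m h1 h2
    have h3 := iha x m (fun l hl hla => h1 l hl (hla.mul_right b)) h2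
    rw [pow_mul]
    push_cast
    rw [← mul_assoc]
    refine ihb (x ^ a) (m * a) (fun l hl hlb => ?_) h3
    exact (h1 l hl (hlb.mul_left a)).trans (by simpa using sub_dvd_pow_sub_pow x 1 a)

/-- An automorphism fixing all roots of unity of order dividing some `N p^r` fixes `ℚ_∞`. -/
theorem fix_Qinf_of_root {p N : ℕ} (h : Lmax p N ≃ₐ[ℚ] Lmax p N)
    (hr : ∀ (r : ℕ) (z : Lmax p N), z ^ (N * p ^ r) = 1 → h z = z) {z : ℂ} (hz : z ∈ Qinf p N) :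
    ∀ hz' : z ∈ Lmax p N, h ⟨z, hz'⟩ = ⟨z, hz'⟩ := by
  induction hz using IntermediateField.adjoin_induction with
  | mem x hx =>
    intro hz'
    obtain ⟨r, hr'⟩ := hx
    exact hr r _ (Subtype.ext hr')
  | algebraMap x =>
    intro hz'
    have e : (⟨algebraMap ℚ ℂ x, hz'⟩ : Lmax p N) = algebraMap ℚ (Lmax p N) x := by
      ext
      simp
    rw [e, h.commutes]
  | add x y hx hy ihx ihy =>
    intro hz'
    have e : (⟨x + y, hz'⟩ : Lmax p N) = ⟨x, Qinf_le_Lmax hx⟩ + ⟨y, Qinf_le_Lmax hy⟩ := rfl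
    rw [e, map_add, ihx, ihy]
  | inv x hx ih =>
    intro hz'
    have e : (⟨x⁻¹, hz'⟩ : Lmax p N) = (⟨x, Qinf_le_Lmax hx⟩ : Lmax p N)⁻¹ := rfl
    rw [e, map_inv₀, ih]
  | mul x y hx hy ihx ihy =>
    intro hz'
    have e : (⟨x * y, hz'⟩ : Lmax p N) = ⟨x, Qinf_le_Lmax hx⟩ * ⟨y, Qinf_le_Lmax hy⟩ := rfl
    rw [e, map_mul, ihx, ihy]

theorem root_fix {p N N' : ℕ} (hp : p.Prime) (hN : 0 < N) (hdvd : N' ∣ N)
    (hrad : ∀ l : ℕ, l.Prime → l ∣ N → l ∣ N')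
    (g : Lmax p N ≃ₐ[ℚ] Lmax p N) (hg : ∀ y : Lmax p N, (y : ℂ) ∈ Qinf p N' → g y = y)
    (y : Lmax p N) (hy : (y : ℂ) ∈ Qinf p N) : (g ^ N) y = y := by
  refine fix_Qinf_of_root (g ^ N) (fun r z hz => ?_) hy y.2
  set M := N * p ^ r with hM
  have hM0 : 0 < M := Nat.mul_pos hN (pow_pos hp.pos r)
  have hne : NeZero M := ⟨hM0.ne'⟩
  obtain ⟨ζ0, hζ0⟩ := (⟨_, Complex.isPrimitiveRoot_exp M hM0.ne'⟩ : ∃ ζ : ℂ, IsPrimitiveRoot ζ M)
  let ζ : Lmax p N := ⟨ζ0, lev_le_Lmax r (mem_lev_of_pow hζ0.pow_eq_one)⟩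
  have hζ : IsPrimitiveRoot ζ M :=
    IsPrimitiveRoot.of_map_of_injective (f := (Lmax p N).val) hζ0 Subtype.val_injective
  have h1 : (g ζ) ^ M = 1 := by rw [← map_pow, hζ.pow_eq_one, map_one]
  obtain ⟨a, -, ha⟩ := hζ.eq_pow_of_pow_eq_one h1
  obtain ⟨c, hc⟩ := hdvd
  have hN'0 : 0 < N' := Nat.pos_of_ne_zero (by rintro rfl; simp at hc; omega)
  have hc0 : 0 < c := Nat.pos_of_ne_zero (by rintro rfl; simp at hc; omega)
  -- `g` fixes `ζ ^ c`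
  have h2 : g (ζ ^ c) = ζ ^ c := by
    refine hg _ ?_
    refine lev_le_Qinf p N' r (mem_lev_of_pow ?_)
    change (ζ0 ^ c) ^ (N' * p ^ r) = 1
    rw [← pow_mul, show c * (N' * p ^ r) = M by rw [hM, hc]; ring]
    exact hζ0.pow_eq_one
  have h3 : ζ ^ (a * c) = ζ ^ c := by
    rw [pow_mul, ha, ← map_pow]
    exact h2
  have h4 : (a * c : ℕ) ≡ c [MOD M] := by
    rw [(hζ.isOfFinOrder hM0.ne').pow_eq_pow_iff_modEq, ← hζ.eq_orderOf] at h3
    exact h3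
  have h5 : (a : ℤ) ≡ 1 [ZMOD (N' * p ^ r : ℕ)] := by
    have h6 : c * a ≡ c * 1 [MOD c * (N' * p ^ r)] := by
      rw [show c * (N' * p ^ r) = M by rw [hM, hc]; ring, mul_comm c a, mul_one]
      exact h4
    have h7 := Nat.ModEq.mul_left_cancel' hc0.ne' h6
    exact_mod_cast (Int.natCast_modEq_iff.mpr h7)
  have h6 : ((N' * p ^ r : ℕ) : ℤ) ∣ (a : ℤ) - 1 := (Int.modEq_iff_dvd.mp h5.symm)
  have h7 : ((p ^ r : ℕ) : ℤ) * N ∣ (a : ℤ) ^ N - 1 := by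
    refine mul_dvd_pow_sub_one N a _ (fun l hl hlN => ?_) ?_
    · refine dvd_trans ?_ h6
      exact_mod_cast (hrad l hl hlN).mul_right _
    · refine dvd_trans ?_ h6
      exact_mod_cast Dvd.intro_left _ rfl
  have h8 : a ^ N ≡ 1 [MOD M] := by
    have h9 : ((M : ℕ) : ℤ) ∣ ((a ^ N : ℕ) : ℤ) - (1 : ℕ) := by
      rw [hM]
      push_cast at h7 ⊢
      rw [mul_comm]
      exact h7
    exact (Int.natCast_modEq_iff.mp (Int.modEq_iff_dvd.mpr h9)).symm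
  have h9 : ∀ n : ℕ, (g ^ n) ζ = ζ ^ (a ^ n) := by
    intro n
    induction n with
    | zero => simp
    | succ n ih =>
      rw [pow_succ', AlgEquiv.mul_apply, ih, map_pow, ← ha, ← pow_mul, pow_succ']
  obtain ⟨i, -, hi⟩ := hζ.eq_pow_of_pow_eq_one hz
  rw [← hi, map_pow, h9]
  congr 1
  have := pow_eq_pow_of_modEq h8 hζ.pow_eq_one
  rwa [pow_one] at this

end Pool.Agent.GP
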