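import Pool.Agent.GP.Desc.Transport
import Pool.Agent.GP.Desc.KummerExt
import Pool.Agent.GP.Desc.Inertia
import Pool.Agent.GP.Desc.InertLift
import Pool.Agent.GP.Desc.RootFix

/-!
# Kummer generators of `L(N)` over `ℚ(ζ_{N' p^∞})` lie in `L(N')`
-/

open IntermediateField NumberField

namespace Pool.Agent.GP

theorem Qinf_mono {p N N' : ℕ} (h : N' ∣ N) : Qinf p N' ≤ Qinf p N := by
  refine IntermediateField.adjoin.mono _ _ _ ?_
  rintro z ⟨r, hr⟩
  refine ⟨r, ?_⟩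
  obtain ⟨c, rfl⟩ := h
  rw [show N' * c * p ^ r = N' * p ^ r * c by ring, pow_mul, hr, one_pow]

section

variable {F F' : IntermediateField ℚ ℂ} {E : IntermediateField F' ℂ} {L : IntermediateField F ℂ}

/-- The inclusion `E → L` of subfields of `ℂ`. -/
noncomputable def inclF (hsub : ∀ z : ℂ, z ∈ E → z ∈ L) : E →+* L where
  toFun := fun z => ⟨z, hsub z z.2⟩
  map_one' := rfl
  map_mul' := fun _ _ => rfl
  map_zero' := rfl
  map_add' := fun _ _ => rfl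

theorem inclF_coe (hsub : ∀ z : ℂ, z ∈ E → z ∈ L) (z : E) : ((inclF hsub z : L) : ℂ) = z := rfl

theorem exists_lift_F [IsGalois ℚ L] (f : E →+* L)
    (P' : Ideal (𝓞 E)) (hP' : P'.IsMaximal) (σ : E ≃ₐ[F'] E) (hσ : Inert P' σ) :
    ∃ (P : Ideal (𝓞 L)) (ρ : L ≃ₐ[ℚ] L), P.IsMaximal ∧ Inert P ρ ∧
      ∀ y : E, ρ (f y) = f (σ y) := by
  let _ : Algebra E L := f.toAlgebra
  let σ' : E ≃ₐ[ℚ] E := AlgEquiv.ofRingEquiv (f := (σ : E ≃+* E)) (fun r => by simp)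
  exact exists_inert_lift (L := L) σ' P' hP' hσ

/-- `E / F'` is unramified if it is a subfield of `L`, `L / F` has trivial inertia groups, and the
exponents of the two groups are coprime. -/
theorem unram_of_coprime [IsGalois ℚ L] (hsub : ∀ z : ℂ, z ∈ E → z ∈ L) {n q : ℕ}
    (hcop : n.Coprime q)
    (hroot : ∀ ρ : L ≃ₐ[ℚ] L, (∀ y : L, (y : ℂ) ∈ F' → ρ y = y) →
      ∀ y : L, (y : ℂ) ∈ F → (ρ ^ n) y = y)
    (hL : ∀ (x : L ≃ₐ[F] L) (P : Ideal (𝓞 L)), P.IsMaximal → Inert P x → x = 1)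
    (hE : ∀ σ : E ≃ₐ[F'] E, σ ^ q = 1) : UnramifiedEverywhere E := by
  intro P' hP' σ hσ
  obtain ⟨P, ρ, hP, hρ, hρσ⟩ := exists_lift_F (inclF hsub) P' hP' σ hσ
  have hfix : ∀ y : L, (y : ℂ) ∈ F' → ρ y = y := by
    intro y hy
    have h1 : y = inclF hsub (algebraMap F' E ⟨y, hy⟩) := rfl
    rw [h1, hρσ, σ.commutes]
  have hfixN := hroot ρ hfix
  let x : L ≃ₐ[F] L :=
    AlgEquiv.ofRingEquiv (f := ((ρ ^ n : L ≃ₐ[ℚ] L) : L ≃+* L)) (fun r => hfixN _ r.2)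
  have hx : x = 1 := hL x P hP (Inert.pow hρ n)
  have hρN : ∀ y : L, (ρ ^ n) y = y := fun y => DFunLike.congr_fun hx y
  have hpow : ∀ (n : ℕ) (y : E), (ρ ^ n) (inclF hsub y) = inclF hsub ((σ ^ n) y) := by
    intro n
    induction n with
    | zero => intro y; rfl
    | succ n ih =>
      intro y
      rw [pow_succ', pow_succ', AlgEquiv.mul_apply, AlgEquiv.mul_apply, ih, hρσ]
  have hσN : σ ^ n = 1 := by
    ext y
    have h1 := hpow n y
    rw [hρN] at h1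
    exact (congrArg (fun t : L => (t : ℂ)) h1).symm
  have h2 : orderOf σ ∣ Nat.gcd n q :=
    Nat.dvd_gcd (orderOf_dvd_of_pow_eq_one hσN) (orderOf_dvd_of_pow_eq_one (hE σ))
  rw [hcop] at h2
  exact orderOf_eq_one_iff.mp (Nat.dvd_one.mp h2)

end

theorem adjoin_le_Lmax {p N N' : ℕ} (hdvd : N' ∣ N) {β : ℂ}
    (hβL : β ∈ Lmax p N) (z : ℂ) (hz : z ∈ IntermediateField.adjoin (Qinf p N') {β}) :
    z ∈ Lmax p N := by
  induction hz using IntermediateField.adjoin_induction with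
  | mem x hx =>
    rw [Set.mem_singleton_iff] at hx
    rw [hx]
    exact hβL
  | algebraMap x => exact Qinf_le_Lmax (Qinf_mono hdvd x.2)
  | add x y hx hy ihx ihy => exact add_mem ihx ihy
  | inv x hx ih => exact inv_mem ih
  | mul x y hx hy ihx ihy => exact mul_mem ihx ihy

theorem mem_Lmax_descent {p N N' : ℕ} (hp : p.Prime) (hN : 0 < N) (hdvd : N' ∣ N)
    (hrad : ∀ l : ℕ, l.Prime → l ∣ N → l ∣ N') (hpN : ¬ p ∣ N) {β : ℂ} {s : ℕ}
    (hβL : β ∈ Lmax p N) (hβ : β ^ (p ^ s) ∈ Qinf p N') : β ∈ Lmax p N' := by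
  have hgal : IsGalois ℚ (Lmax p N) := Lmax_isGalois hp hN
  have hcop : Nat.Coprime N (p ^ s) :=
    Nat.Coprime.pow_right _ ((Nat.Prime.coprime_iff_not_dvd hp).mpr hpN).symm
  have h := kummer_isUnramifiedAbelianP hp hβ
    (unram_of_coprime (L := Lmax p N) (adjoin_le_Lmax hdvd hβL) hcop
      (fun ρ hρ y hy => root_fix hp hN hdvd hrad ρ hρ y hy)
      (fun x P hP h => Lmax_inert_eq_one x P hP h)
      (fun σ => kummer_pow_eq_one hp hβ σ))
  exact le_Lmax h (IntermediateField.mem_adjoin_simple_self (Qinf p N') β)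

end Pool.Agent.GP
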