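import Pool.Agent.GP.Statement

/-!
# Statement-level definitions: comparison of the plus parts for two levels
-/

namespace Pool.Agent.GP

/-- `L'` is contained in `L` (inside `ℂ`, via `i'` and `i`), and restriction of automorphisms to
`L'` is a bijection from the plus part of `Gal(L/F)` onto the plus part of `Gal(L'/F')`: every `x`
in the first restricts to exactly one `y` in the second, and every `y` in the second is the
restriction of exactly one `x` in the first. -/
def PlusRestrictBij (F L F' L' : Type) [Field F] [Field L] [Algebra F L] [Field F'] [Field L']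
    [Algebra F' L'] (i : L → ℂ) (i' : L' → ℂ) : Prop :=
  (∀ w : L', ∃ z : L, i z = i' w) ∧
  (∀ x ∈ plus F L i, ∃! y, y ∈ plus F' L' i' ∧
    ∀ (z : L) (w : L'), i z = i' w → i (x z) = i' (y w)) ∧
  (∀ y ∈ plus F' L' i', ∃! x, x ∈ plus F L i ∧
    ∀ (z : L) (w : L'), i z = i' w → i (x z) = i' (y w))

/-- Restriction of automorphisms is a bijection `X⁺(N) → X⁺(N')`, where `X⁺(N)` is the plus part of
the Galois group of the maximal unramified abelian pro-`p` extension of `ℚ(ζ_{N p^∞})`. -/
def XplusRestrictBij (p N N' : ℕ) : Prop :=
  PlusRestrictBij (Qinf p N) (maxUnram p (Qinf p N)) (Qinf p N') (maxUnram p (Qinf p N'))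
    Subtype.val Subtype.val

end Pool.Agent.GP
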