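import Mathlib

/-!
# Roots of automorphisms all of whose orbits are `p`-power torsion
-/

namespace Pool.Agent.GP

section

variable {K L : Type} [Field K] [Field L] [Algebra K L] {p : ℕ} {y : L ≃ₐ[K] L}

theorem pow_mul_fix {n : ℕ} {z : L} (h : (y ^ n) z = z) (t : ℕ) : (y ^ (n * t)) z = z := by
  induction t with
  | zero => rfl
  | succ t ih => rw [Nat.mul_succ, pow_add, AlgEquiv.mul_apply, h, ih]

theorem pow_congr {n a b : ℕ} {z : L} (h : (y ^ n) z = z) (hab : a ≡ b [MOD n]) :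
    (y ^ a) z = (y ^ b) z := by
  have h1 : ∀ c : ℕ, (y ^ c) z = (y ^ (c % n)) z := by
    intro c
    conv_lhs => rw [← Nat.mod_add_div c n]
    rw [pow_add, AlgEquiv.mul_apply, pow_mul_fix h]
  rw [h1 a, h1 b, hab]

theorem pow_fix_mono {k k' : ℕ} (hk : k ≤ k') {z : L} (h : (y ^ (p ^ k)) z = z) :
    (y ^ (p ^ k')) z = z := by
  obtain ⟨i, rfl⟩ := Nat.exists_eq_add_of_le hk
  rw [pow_add]
  exact pow_mul_fix h _

theorem pow_fix_pow {n : ℕ} {z : L} (h : (y ^ n) z = z) (c : ℕ) :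
    (y ^ n) ((y ^ c) z) = (y ^ c) z := by
  rw [← AlgEquiv.mul_apply, ← pow_add, add_comm, pow_add, AlgEquiv.mul_apply, h]

theorem exists_inv_mod (hp : p.Prime) {m : ℕ} (hm : m.Coprime p) (k : ℕ) :
    ∃ a : ℕ, a * m ≡ 1 [MOD p ^ k] := by
  rcases Nat.eq_zero_or_pos k with rfl | hk
  · exact ⟨0, by rw [pow_zero]; exact Nat.modEq_one⟩
  · have h1 : 1 < p ^ k := Nat.one_lt_pow hk.ne' hp.one_lt
    obtain ⟨a, -, ha⟩ := Nat.exists_mul_mod_eq_one_of_coprime (Nat.Coprime.pow_right k hm) h1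
    refine ⟨a, ?_⟩
    change a * m % p ^ k = 1 % p ^ k
    rw [mul_comm, ha, Nat.mod_eq_of_lt h1]

/-- `y` has an `m`-th root for `m` prime to `p`, if every element of `L` is fixed by some
`y ^ (p ^ k)`. -/
theorem exists_pow_root (hp : p.Prime) {m : ℕ} (hm : m.Coprime p) (y : L ≃ₐ[K] L)
    (hy : ∀ z : L, ∃ k, (y ^ (p ^ k)) z = z) :
    ∃ y' : L ≃ₐ[K] L, y' ^ m = y ∧
      ∀ z w : L, ∃ a : ℕ, y' z = (y ^ a) z ∧ y' w = (y ^ a) w := by
  choose k hk using hy
  choose a ha using exists_inv_mod hp hm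
  have key : ∀ (z : L) (j : ℕ), (y ^ (p ^ j)) z = z → (y ^ a (k z)) z = (y ^ a j) z := by
    intro z j hj
    have h1 : ∀ i i' : ℕ, i ≤ i' → (y ^ (p ^ i)) z = z → (y ^ a i') z = (y ^ a i) z := by
      intro i i' hii hi
      refine pow_congr hi ?_
      have h2 : a i' * m ≡ 1 [MOD p ^ i] := (ha i').of_dvd (pow_dvd_pow p hii)
      exact Nat.ModEq.cancel_right_of_coprime (Nat.Coprime.pow_left i hm.symm)
        (h2.trans (ha i).symm)
    rcases le_total j (k z) with h | h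
    · exact h1 j (k z) h hj
    · exact (h1 (k z) j h (hk z)).symm
  let F : L → L := fun z => (y ^ a (k z)) z
  have hF : ∀ (z : L) (j : ℕ), (y ^ (p ^ j)) z = z → F z = (y ^ a j) z := key
  let f : L →ₐ[K] L :=
    { toFun := F
      map_one' := by rw [hF 1 0 (map_one _), map_one]
      map_mul' := by
        intro u v
        have hu := pow_fix_mono (le_max_left (k u) (k v)) (hk u)
        have hv := pow_fix_mono (le_max_right (k u) (k v)) (hk v)
        rw [hF u _ hu, hF v _ hv, hF (u * v) (max (k u) (k v)) (by rw [map_mul, hu, hv]), map_mul]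
      map_zero' := by rw [hF 0 0 (map_zero _), map_zero]
      map_add' := by
        intro u v
        have hu := pow_fix_mono (le_max_left (k u) (k v)) (hk u)
        have hv := pow_fix_mono (le_max_right (k u) (k v)) (hk v)
        rw [hF u _ hu, hF v _ hv, hF (u + v) (max (k u) (k v)) (by rw [map_add, hu, hv]), map_add]
      commutes' := by
        intro r
        rw [hF _ 0 (AlgEquiv.commutes _ _)]
        exact AlgEquiv.commutes _ _ }
  have hf : ∀ (z : L) (j : ℕ), (y ^ (p ^ j)) z = z → f z = (y ^ a j) z := hF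
  have hsurj : Function.Surjective f := by
    intro z
    have h1 : (y ^ (p ^ k z)) ((y ^ a (k z))⁻¹ z) = (y ^ a (k z))⁻¹ z := by
      have h2 : y ^ (p ^ k z) * (y ^ a (k z))⁻¹ = (y ^ a (k z))⁻¹ * y ^ (p ^ k z) := by
        rw [← zpow_natCast, ← zpow_natCast, ← zpow_neg, ← zpow_add, ← zpow_add, add_comm]
      rw [← AlgEquiv.mul_apply, h2, AlgEquiv.mul_apply, hk z]
    refine ⟨(y ^ a (k z))⁻¹ z, ?_⟩
    rw [hf _ _ h1, ← AlgEquiv.mul_apply, mul_inv_cancel, AlgEquiv.one_apply]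
  let y' : L ≃ₐ[K] L := AlgEquiv.ofBijective f ⟨f.toRingHom.injective, hsurj⟩
  have hy' : ∀ (z : L) (j : ℕ), (y ^ (p ^ j)) z = z → y' z = (y ^ a j) z := hf
  have hpow : ∀ (z : L) (i : ℕ), (y' ^ i) z = (y ^ (a (k z) * i)) z := by
    intro z i
    induction i with
    | zero => rfl
    | succ i ih =>
      rw [pow_succ', AlgEquiv.mul_apply, ih, hy' _ (k z) (pow_fix_pow (hk z) _),
        ← AlgEquiv.mul_apply, ← pow_add, Nat.mul_succ, add_comm]
  refine ⟨y', ?_, ?_⟩
  · ext z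
    rw [hpow z m, pow_congr (hk z) (ha (k z)), pow_one]
  · intro z w
    exact ⟨a (max (k z) (k w)), hy' z _ (pow_fix_mono (le_max_left _ _) (hk z)),
      hy' w _ (pow_fix_mono (le_max_right _ _) (hk w))⟩

end

end Pool.Agent.GP
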