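import Pool.Agent.GP.Desc.Transfer
import Pool.Agent.GP.Desc.PowRoot

/-!
# Restriction `X⁺(N) → X⁺(N')` is surjective
-/

open IntermediateField NumberField

namespace Pool.Agent.GP

section

variable {F F' : IntermediateField ℚ ℂ} {L' : IntermediateField F' ℂ} {L : IntermediateField F ℂ}

theorem exists_lift_res [IsGalois ℚ L] (hsub : ∀ z : ℂ, z ∈ L' → z ∈ L) (y : L' ≃ₐ[F'] L') :
    ∃ ρ : L ≃ₐ[ℚ] L, ∀ z : L', ρ (inclF hsub z) = inclF hsub (y z) := by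
  let _ : Algebra L' L := (inclF hsub).toAlgebra
  let σ' : L' ≃ₐ[ℚ] L' := AlgEquiv.ofRingEquiv (f := (y : L' ≃+* L')) (fun r => by simp)
  have : IsScalarTower ℚ L' L := IsScalarTower.of_algebraMap_eq (fun r => by
    apply Subtype.ext
    change _ = ((inclF hsub (algebraMap ℚ L' r) : L) : ℂ)
    rw [inclF_coe]
    simp)
  exact ⟨σ'.liftNormal L, fun z => σ'.liftNormal_commutes L z⟩

/-- An `n`-th power of an automorphism of `L' / F'` extends to `L / F`. -/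
theorem exists_ext_pow [IsGalois ℚ L] (hsub : ∀ z : ℂ, z ∈ L' → z ∈ L) {n : ℕ}
    (hroot : ∀ ρ : L ≃ₐ[ℚ] L, (∀ y : L, (y : ℂ) ∈ F' → ρ y = y) →
      ∀ y : L, (y : ℂ) ∈ F → (ρ ^ n) y = y) (y : L' ≃ₐ[F'] L') :
    ∃ x : L ≃ₐ[F] L, ∀ (z : L) (w : L'), (z : ℂ) = w →
      ((x z : L) : ℂ) = ((y ^ n) w : L') := by
  obtain ⟨ρ, hρ⟩ := exists_lift_res hsub y
  have hfix : ∀ u : L, (u : ℂ) ∈ F' → ρ u = u := by
    intro u hu
    have h1 : u = inclF hsub (algebraMap F' L' ⟨u, hu⟩) := rfl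
    rw [h1, hρ, y.commutes]
  have hfixN := hroot ρ hfix
  have hpow : ∀ (k : ℕ) (z : L'), (ρ ^ k) (inclF hsub z) = inclF hsub ((y ^ k) z) := by
    intro k
    induction k with
    | zero => intro z; rfl
    | succ k ih =>
      intro z
      rw [pow_succ', pow_succ', AlgEquiv.mul_apply, AlgEquiv.mul_apply, ih, hρ]
  let x : L ≃ₐ[F] L :=
    AlgEquiv.ofRingEquiv (f := ((ρ ^ n : L ≃ₐ[ℚ] L) : L ≃+* L)) (fun r => hfixN _ r.2)
  refine ⟨x, fun z w hzw => ?_⟩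
  have h1 : z = inclF hsub w := Subtype.ext hzw
  have h2 : x z = (ρ ^ n) z := rfl
  rw [h2, h1, hpow]
  rfl

/-- Complex conjugation as an automorphism of `L`. -/
noncomputable def conjL (h : ∀ z : ℂ, z ∈ L → starRingEnd ℂ z ∈ L) : L ≃+* L where
  toFun := fun z => ⟨starRingEnd ℂ z, h z z.2⟩
  invFun := fun z => ⟨starRingEnd ℂ z, h z z.2⟩
  left_inv := fun z => Subtype.ext (Complex.conj_conj (z : ℂ))
  right_inv := fun z => Subtype.ext (Complex.conj_conj (z : ℂ))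
  map_mul' := fun a b => Subtype.ext (map_mul (starRingEnd ℂ) (a : ℂ) (b : ℂ))
  map_add' := fun a b => Subtype.ext (map_add (starRingEnd ℂ) (a : ℂ) (b : ℂ))

theorem conjL_coe (h : ∀ z : ℂ, z ∈ L → starRingEnd ℂ z ∈ L) (z : L) :
    ((conjL h z : L) : ℂ) = starRingEnd ℂ z := rfl

theorem conjL_symm (h : ∀ z : ℂ, z ∈ L → starRingEnd ℂ z ∈ L) (z : L) :
    (conjL h).symm z = conjL h z := rfl

theorem conjL_conjL (h : ∀ z : ℂ, z ∈ L → starRingEnd ℂ z ∈ L) (z : L) :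
    conjL h (conjL h z) = z := Subtype.ext (Complex.conj_conj (z : ℂ))

end

section

variable {p N : ℕ}

theorem Lmax_torsion (x : Lmax p N ≃ₐ[Qinf p N] Lmax p N) (z : Lmax p N) :
    ∃ k, (x ^ (p ^ k)) z = z := by
  have key : ∀ z : ℂ, z ∈ IntermediateField.adjoin (Qinf p N)
      {z : ℂ | ∃ M : IntermediateField (Qinf p N) ℂ, IsUnramifiedAbelianP p M ∧ z ∈ M} →
      ∀ hz' : z ∈ Lmax p N, ∃ k, (x ^ (p ^ k)) ⟨z, hz'⟩ = ⟨z, hz'⟩ := by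
    intro z hz
    induction hz using IntermediateField.adjoin_induction with
    | mem w hw =>
      intro hz'
      obtain ⟨M, hM, hw⟩ := hw
      obtain ⟨τ, hτ⟩ := exists_restrict hM x
      have hfin := hM.finite
      have hgal := hM.galois
      obtain ⟨n, hn⟩ := hM.degree
      refine ⟨n, ?_⟩
      have h1 : τ ^ (p ^ n) = 1 := by
        rw [← hn, ← IsGalois.card_aut_eq_finrank]
        exact pow_card_eq_one'
      have h2 : ∀ (j : ℕ) (b : M), (((τ ^ j) b : M) : ℂ) =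
          ((x ^ j) ⟨b, le_Lmax hM b.2⟩ : Lmax p N) := by
        intro j
        induction j with
        | zero => intro b; rfl
        | succ j ih =>
          intro b
          rw [pow_succ, pow_succ, AlgEquiv.mul_apply, AlgEquiv.mul_apply, ih]
          congr 2
          exact Subtype.ext (hτ b)
      have h3 := h2 (p ^ n) ⟨w, hw⟩
      rw [h1] at h3
      exact Subtype.ext h3.symm
    | algebraMap w =>
      intro hz'
      exact ⟨0, (x ^ (p ^ 0)).commutes w⟩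
    | add u v hu hv ihu ihv =>
      intro hz'
      rw [← Lmax_eq_adjoin] at hu hv
      obtain ⟨k, hk⟩ := ihu hu
      obtain ⟨l, hl⟩ := ihv hv
      have e : (⟨u + v, hz'⟩ : Lmax p N) = ⟨u, hu⟩ + ⟨v, hv⟩ := rfl
      exact ⟨max k l, by rw [e, map_add, pow_fix_mono (le_max_left k l) hk,
        pow_fix_mono (le_max_right k l) hl]⟩
    | inv u hu ih =>
      intro hz'
      rw [← Lmax_eq_adjoin] at hu
      obtain ⟨k, hk⟩ := ih hu
      have e : (⟨u⁻¹, hz'⟩ : Lmax p N) = (⟨u, hu⟩ : Lmax p N)⁻¹ := rfl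
      exact ⟨k, by rw [e, map_inv₀, hk]⟩
    | mul u v hu hv ihu ihv =>
      intro hz'
      rw [← Lmax_eq_adjoin] at hu hv
      obtain ⟨k, hk⟩ := ihu hu
      obtain ⟨l, hl⟩ := ihv hv
      have e : (⟨u * v, hz'⟩ : Lmax p N) = ⟨u, hu⟩ * ⟨v, hv⟩ := rfl
      exact ⟨max k l, by rw [e, map_mul, pow_fix_mono (le_max_left k l) hk,
        pow_fix_mono (le_max_right k l) hl]⟩
  refine key z ?_ z.2
  rw [← Lmax_eq_adjoin]
  exact z.2

theorem Lmax_comm (x₁ x₂ : Lmax p N ≃ₐ[Qinf p N] Lmax p N) : x₁ * x₂ = x₂ * x₁ := by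
  have key : ((Lmax p N).val.comp ((x₁ * x₂ : Lmax p N ≃ₐ[Qinf p N] Lmax p N) :
      Lmax p N →ₐ[Qinf p N] Lmax p N)) =
      (Lmax p N).val.comp ((x₂ * x₁ : Lmax p N ≃ₐ[Qinf p N] Lmax p N) :
        Lmax p N →ₐ[Qinf p N] Lmax p N) := by
    apply Lmax_hom_ext
    intro M hM z hz
    obtain ⟨τ₁, h₁⟩ := exists_restrict hM x₁
    obtain ⟨τ₂, h₂⟩ := exists_restrict hM x₂
    have e₁ : ∀ b : M, x₁ ⟨b, le_Lmax hM b.2⟩ = ⟨τ₁ b, le_Lmax hM (τ₁ b).2⟩ :=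
      fun b => Subtype.ext (h₁ b).symm
    have e₂ : ∀ b : M, x₂ ⟨b, le_Lmax hM b.2⟩ = ⟨τ₂ b, le_Lmax hM (τ₂ b).2⟩ :=
      fun b => Subtype.ext (h₂ b).symm
    have h3 : x₁ (x₂ z) = x₂ (x₁ z) := by
      have ez : z = ⟨(⟨z, hz⟩ : M), le_Lmax hM hz⟩ := rfl
      rw [ez, e₂, e₁, e₁, e₂]
      have := DFunLike.congr_fun (hM.comm τ₁ τ₂) (⟨z, hz⟩ : M)
      exact Subtype.ext (congrArg (fun t : M => (t : ℂ)) this)
    exact congrArg (fun t : Lmax p N => (t : ℂ)) h3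
  ext y
  exact DFunLike.congr_fun key y

theorem Xplus_one : (1 : Lmax p N ≃ₐ[Qinf p N] Lmax p N) ∈ Xplus p N := fun _ _ h => h

theorem Xplus_pow {x : Lmax p N ≃ₐ[Qinf p N] Lmax p N} (hx : x ∈ Xplus p N) (n : ℕ) :
    x ^ n ∈ Xplus p N := by
  induction n with
  | zero => exact Xplus_one
  | succ n ih =>
    rw [pow_succ]
    exact Xplus_mul ih hx

end

theorem exists_ext_pow_Lmax {p N N' : ℕ} (hp : p.Prime) (hN : 0 < N) (hdvd : N' ∣ N)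
    (hrad : ∀ l : ℕ, l.Prime → l ∣ N → l ∣ N') (y : Lmax p N' ≃ₐ[Qinf p N'] Lmax p N') :
    ∃ x : Lmax p N ≃ₐ[Qinf p N] Lmax p N, ∀ (z : Lmax p N) (w : Lmax p N'), (z : ℂ) = w →
      ((x z : Lmax p N) : ℂ) = ((y ^ N) w : Lmax p N') := by
  have hgal : IsGalois ℚ (Lmax p N) := Lmax_isGalois hp hN
  exact exists_ext_pow (L := Lmax p N) (fun _ hz => Lmax_mono hp hN hdvd hz)
    (fun ρ hρ y hy => root_fix hp hN hdvd hrad ρ hρ y hy) y

/-- Every element of `X⁺(N')` extends to an element of `X⁺(N)`. -/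
theorem Xplus_res_surj {p N N' : ℕ} (hp : p.Prime) (hp2 : p ≠ 2) (hN : 0 < N) (hdvd : N' ∣ N)
    (hrad : ∀ l : ℕ, l.Prime → l ∣ N → l ∣ N') (hpN : ¬ p ∣ N)
    {y : Lmax p N' ≃ₐ[Qinf p N'] Lmax p N'} (hy : y ∈ Xplus p N') :
    ∃ x ∈ Xplus p N, ∀ (z : Lmax p N) (w : Lmax p N'), (z : ℂ) = w →
      ((x z : Lmax p N) : ℂ) = (y w : Lmax p N') := by
  have hcop : (2 * N).Coprime p := by
    refine Nat.Coprime.mul_left ?_ ?_
    · exact (Nat.coprime_primes Nat.prime_two hp).mpr (Ne.symm hp2)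
    · exact ((Nat.Prime.coprime_iff_not_dvd hp).mpr hpN).symm
  obtain ⟨y₂, hy₂, hcomp⟩ := exists_pow_root hp hcop y (Lmax_torsion y)
  have hy₂X : y₂ ∈ Xplus p N' := by
    intro a b hab
    obtain ⟨c, hc1, hc2⟩ := hcomp a b
    rw [hc1, hc2]
    exact Xplus_pow hy c a b hab
  have hyN := Xplus_pow hy₂X N
  obtain ⟨x₀, hx₀⟩ := exists_ext_pow_Lmax hp hN hdvd hrad y₂
  let c : Lmax p N ≃+* Lmax p N := conjL (fun _ hz => conj_mem_Lmax hz)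
  have hcc : ∀ z, c (c z) = z := conjL_conjL _
  have hcs : ∀ z, c.symm z = c z := fun z => rfl
  have hcoe : ∀ z : Lmax p N, ((c z : Lmax p N) : ℂ) = starRingEnd ℂ z := fun z => rfl
  set x₁ := conjAut hp hN x₀ c with hx₁
  have hx₁a : ∀ z, x₁ z = c (x₀ (c z)) := fun z => conjAut_apply hp hN x₀ c z
  refine ⟨x₀ * x₁, ?_, ?_⟩
  · intro a b hab
    have hb : b = c a := Subtype.ext hab
    have h1 : (x₀ * x₁) b = c ((x₀ * x₁) a) := by
      have h2 : (x₀ * x₁) a = (x₁ * x₀) a := by rw [Lmax_comm]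
      rw [h2, AlgEquiv.mul_apply, AlgEquiv.mul_apply, hx₁a, hx₁a, hb, hcc, hcc]
    rw [h1, hcoe]
  · intro z w hzw
    have hw' : starRingEnd ℂ (w : ℂ) ∈ Lmax p N' := conj_mem_Lmax w.2
    have h1 : ((x₀ (c z) : Lmax p N) : ℂ) = ((y₂ ^ N) ⟨_, hw'⟩ : Lmax p N') := by
      apply hx₀
      rw [hcoe, hzw]
    have h2 : (((y₂ ^ N) ⟨_, hw'⟩ : Lmax p N') : ℂ) = starRingEnd ℂ ((y₂ ^ N) w : Lmax p N') :=
      hyN w ⟨_, hw'⟩ rfl
    have h3 : ((x₁ z : Lmax p N) : ℂ) = ((y₂ ^ N) w : Lmax p N') := by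
      rw [hx₁a, hcoe, h1, h2, Complex.conj_conj]
    rw [AlgEquiv.mul_apply, hx₀ _ _ h3, ← AlgEquiv.mul_apply, ← pow_add, ← two_mul, hy₂]

/-- Restriction is a bijection `X⁺(N) → X⁺(N')`. -/
theorem Xplus_res_bij {p N N' : ℕ} (hp : p.Prime) (hp2 : p ≠ 2) (hN : 0 < N) (hdvd : N' ∣ N)
    (hrad : ∀ l : ℕ, l.Prime → l ∣ N → l ∣ N') (hpN : ¬ p ∣ N)
    (hfix : ∀ x ∈ Xplus p N, ∀ g : Lmax p N ≃+* Lmax p N,
      (∀ y : Lmax p N, (y : ℂ) ∈ Qinf p N' → g y = y) → ∀ y, g (x y) = x (g y)) :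
    (∀ x ∈ Xplus p N, ∃ y ∈ Xplus p N', ∀ (z : Lmax p N) (w : Lmax p N'), (z : ℂ) = w →
      ((x z : Lmax p N) : ℂ) = (y w : Lmax p N')) ∧
    (∀ y ∈ Xplus p N', ∃! x, x ∈ Xplus p N ∧ ∀ (z : Lmax p N) (w : Lmax p N'), (z : ℂ) = w →
      ((x z : Lmax p N) : ℂ) = (y w : Lmax p N')) := by
  refine ⟨fun x hx => ?_, fun y hy => ?_⟩
  · obtain ⟨y, hy⟩ := exists_res_Lmax hp hN hdvd x
    refine ⟨y, fun a b hab => ?_, hy⟩
    have ha : (a : ℂ) ∈ Lmax p N := Lmax_mono hp hN hdvd a.2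
    have hb : (b : ℂ) ∈ Lmax p N := Lmax_mono hp hN hdvd b.2
    rw [← hy ⟨a, ha⟩ a rfl, ← hy ⟨b, hb⟩ b rfl]
    exact hx ⟨a, ha⟩ ⟨b, hb⟩ hab
  · obtain ⟨x, hx, hxy⟩ := Xplus_res_surj hp hp2 hN hdvd hrad hpN hy
    refine ⟨x, ⟨hx, hxy⟩, ?_⟩
    rintro x' ⟨hx', hxy'⟩
    refine Xplus_res_inj hp hN hdvd hrad hpN hfix hx' hx (fun z hz => ?_)
    apply Subtype.ext
    rw [hxy' z ⟨z, hz⟩ rfl, hxy z ⟨z, hz⟩ rfl]

end Pool.Agent.GP
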