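import Pool.Agent.GP.Final4
import Pool.Agent.GP.Desc.Surject
import Pool.Agent.GP.Desc.Statement2

/-!
# `X⁺(N)` depends only on an explicit divisor of `N`
-/

open IntermediateField NumberField

namespace Pool.Agent.GP

theorem xplusRestrictBij_of_fixed {p N N' : ℕ} (hp : p.Prime) (hp2 : p ≠ 2) (hN : 0 < N)
    (hdvd : N' ∣ N) (hrad : ∀ l : ℕ, l.Prime → l ∣ N → l ∣ N') (hpN : ¬ p ∣ N)
    (hfix : XplusFixed p N N') : XplusRestrictBij p N N' := by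
  unfold XplusFixed at hfix
  unfold XplusRestrictBij
  rw [maxUnram_eq] at hfix ⊢
  rw [maxUnram_eq]
  obtain ⟨h1, h2⟩ := Xplus_res_bij hp hp2 hN hdvd hrad hpN hfix
  refine ⟨fun w => ⟨⟨w, Lmax_mono hp hN hdvd w.2⟩, rfl⟩, fun x hx => ?_, h2⟩
  obtain ⟨y, hy, hxy⟩ := h1 x hx
  refine ⟨y, ⟨hy, hxy⟩, ?_⟩
  rintro y' ⟨-, hxy'⟩
  ext w
  have hw := Lmax_mono hp hN hdvd w.2
  rw [← hxy' ⟨w, hw⟩ w rfl, ← hxy ⟨w, hw⟩ w rfl]

theorem xplusRestrictBij_supported {p : ℕ} (hp : p.Prime) (hp2 : p ≠ 2) {S : Finset ℕ}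
    (hS : ∀ l ∈ S, l.Prime ∧ l ≠ p) {r : ℕ} (hr0 : 0 < r) (hr4 : 4 ∣ p ^ r - 1)
    (hr : ∀ l ∈ S, ∀ d, d ∣ l * (l - 1) → ¬ p ∣ d → d ∣ p ^ r - 1) {M : ℕ} (hM : M ≠ 0)
    (hbound : ∀ l ∈ S, (3 * p * ∏ l ∈ S, l ^ ((p ^ r - 1).factorization l + 1)) ^ l ≤
      l ^ (M.factorization l + 1)) {N : ℕ} (hN : N ≠ 0) (hNS : ∀ l : ℕ, l.Prime → l ∣ N → l ∈ S) :
    XplusRestrictBij p N (Nat.gcd N M) := by
  have hpN : ¬ p ∣ N := fun h => (hS p (hNS p hp h)).2 rfl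
  refine xplusRestrictBij_of_fixed hp hp2 (Nat.pos_of_ne_zero hN) (Nat.gcd_dvd_left N M) ?_ hpN
    (xplusFixed_supported hp hp2 hS hr0 hr4 hr hM hbound hN hNS)
  intro l hl hlN
  refine Nat.dvd_gcd hlN ?_
  by_contra hcon
  have h1 := hbound l (hNS l hl hlN)
  rw [Nat.factorization_eq_zero_of_not_dvd hcon, zero_add, pow_one] at h1
  have h2 : l < 3 * p * ∏ l ∈ S, l ^ ((p ^ r - 1).factorization l + 1) := by
    have h3 : l ∣ ∏ l ∈ S, l ^ ((p ^ r - 1).factorization l + 1) :=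
      (dvd_pow_self l (by omega)).trans (Finset.dvd_prod_of_mem _ (hNS l hl hlN))
    have h4 : 0 < ∏ l ∈ S, l ^ ((p ^ r - 1).factorization l + 1) :=
      Finset.prod_pos fun l hl => pow_pos (hS l hl).1.pos _
    have h5 := Nat.le_of_dvd h4 h3
    have h6 := hp.two_le
    nlinarith
  have h3 : l < (3 * p * ∏ l ∈ S, l ^ ((p ^ r - 1).factorization l + 1)) ^ l :=
    h2.trans_le (Nat.le_self_pow hl.ne_zero _)
  omega

end Pool.Agent.GP
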