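import Pool.Agent.GP.Final2
import Pool.Agent.GP.Desc.Final5

/-!
# `X⁺(3^k) = X⁺(3^K)` for `k ≥ K`
-/

namespace Pool.Agent.GP

theorem xplusRestrictBij_three_pow {p : ℕ} (hp : p.Prime) (hp5 : 5 ≤ p)
    (hp9 : p % 9 = 2 ∨ p % 9 = 5) {K : ℕ} (hK : 1 ≤ K) (hKp : p < 2 * 3 ^ K + 2) {k : ℕ}
    (hk : K ≤ k) : XplusRestrictBij p (3 ^ k) (3 ^ K) := by
  refine xplusRestrictBij_of_fixed hp (by omega) (by positivity) (pow_dvd_pow 3 hk) ?_ ?_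
    (xplusFixed_three_pow hp hp5 hp9 hK hKp k)
  · intro l hl hlN
    have h3 : l = 3 := (Nat.prime_dvd_prime_iff_eq hl Nat.prime_three).mp (hl.dvd_of_dvd_pow hlN)
    rw [h3]
    exact dvd_pow_self 3 (by omega)
  · intro h
    have h3 : p = 3 := (Nat.prime_dvd_prime_iff_eq hp Nat.prime_three).mp (hp.dvd_of_dvd_pow h)
    omega

end Pool.Agent.GP
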