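import Pool.Agent.GP.Desc.Descend

/-!
# Elements commuting with a Galois group and Kummer generators
-/

open IntermediateField NumberField

namespace Pool.Agent.GP

section

variable {K L : Type} [Field K] [Field L] [Algebra K L]

/-- The elements fixed by all `n`-th powers of elements of the Galois group. -/
def powFixed (K L : Type) [Field K] [Field L] [Algebra K L] (n : ℕ) : IntermediateField K L where
  carrier := {y | ∀ g : L ≃ₐ[K] L, (g ^ n) y = y}
  mul_mem' := by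
    intro a b ha hb g
    rw [map_mul, ha g, hb g]
  add_mem' := by
    intro a b ha hb g
    rw [map_add, ha g, hb g]
  algebraMap_mem' := by
    intro r g
    exact (g ^ n).commutes r
  inv_mem' := by
    intro a ha g
    rw [map_inv₀, ha g]

theorem powFixed_normal [IsGalois K L] (n : ℕ) : Normal K (powFixed K L n) := by
  rw [normal_iff_forall_map_le']
  intro σ
  rintro _ ⟨z, hz, rfl⟩
  intro g
  have h1 : g ^ n * σ = σ * (σ⁻¹ * g * σ) ^ n := by
    have h2 : (σ⁻¹ * g * σ) ^ n = σ⁻¹ * g ^ n * σ := by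
      have := conj_pow (i := n) (a := σ⁻¹) (b := g)
      rwa [inv_inv] at this
    rw [h2]
    group
  have h3 : (g ^ n) (σ z) = σ (((σ⁻¹ * g * σ) ^ n) z) := DFunLike.congr_fun h1 z
  change (g ^ n) (σ z) = σ z
  rw [h3, hz]

theorem fixed_radical_abs [IsGalois K L] {q n : ℕ} (hcop : n.Coprime q) (x : L ≃+* L)
    (hx : ∀ (g : L ≃ₐ[K] L) (y : L), g (x y) = x (g y)) (α : L) (hα : α ≠ 0)
    (hB : ∀ g : L ≃ₐ[K] L, (g ^ n) (α ^ q) = α ^ q) (ζ : K) (hζ : ζ ^ q = 1)
    (hxα : x α = algebraMap K L ζ * α)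
    (hfix : ∀ (β : L) (b : K), algebraMap K L b = β ^ q → x β = β) : x α = α := by
  let M := FiniteGaloisIntermediateField.adjoin K {α ^ q}
  have hBM : α ^ q ∈ M.toIntermediateField :=
    FiniteGaloisIntermediateField.subset_adjoin K {α ^ q} rfl
  have hM : M.toIntermediateField ≤ powFixed K L n := by
    have := powFixed_normal (K := K) (L := L) n
    change normalClosure K (IntermediateField.adjoin K {α ^ q}) L ≤ powFixed K L n
    rw [normalClosure_le_iff_of_normal, IntermediateField.adjoin_le_iff,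
      Set.singleton_subset_iff]
    exact hB
  let lift : (M ≃ₐ[K] M) → (L ≃ₐ[K] L) := fun σ => σ.liftNormal L
  have hlift : ∀ (σ : M ≃ₐ[K] M) (y : M), lift σ (y : L) = (σ y : M) := fun σ y =>
    σ.liftNormal_commutes L y
  have hpow : ∀ (σ : M ≃ₐ[K] M) (k : ℕ) (y : M), (lift σ ^ k) (y : L) = ((σ ^ k) y : M) := by
    intro σ k
    induction k with
    | zero => intro y; rfl
    | succ k ih =>
      intro y
      rw [pow_succ', pow_succ', AlgEquiv.mul_apply, AlgEquiv.mul_apply, ih, hlift]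
  have hexp : ∀ σ : M ≃ₐ[K] M, σ ^ n = 1 := by
    intro σ
    ext y
    rw [← hpow]
    exact hM y.2 (lift σ)
  have hcard : (Fintype.card (M ≃ₐ[K] M)).Coprime q := by
    rw [Nat.coprime_iff_gcd_eq_one]
    by_contra h
    obtain ⟨l, hl, hld⟩ := Nat.exists_prime_and_dvd h
    have : Fact l.Prime := ⟨hl⟩
    obtain ⟨σ, hσ⟩ := exists_prime_orderOf_dvd_card l (hld.trans (Nat.gcd_dvd_left _ _))
    have h1 : l ∣ n := by
      rw [← hσ]
      exact orderOf_dvd_of_pow_eq_one (hexp σ)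
    have h2 : l ∣ q := hld.trans (Nat.gcd_dvd_right _ _)
    have h3 : l ∣ 1 := by
      rw [← hcop]
      exact Nat.dvd_gcd h1 h2
    exact hl.one_lt.ne' (Nat.dvd_one.mp h3)
  set β : L := ∏ σ : M ≃ₐ[K] M, lift σ α with hβ
  have hβ0 : β ≠ 0 := Finset.prod_ne_zero_iff.mpr fun σ _ =>
    (map_ne_zero_iff _ (lift σ).injective).mpr hα
  have hβq : algebraMap K L (Algebra.norm K (⟨α ^ q, hBM⟩ : M)) = β ^ q := by
    rw [IsScalarTower.algebraMap_apply K M L, Algebra.norm_eq_prod_automorphisms, map_prod, hβ,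
      ← Finset.prod_pow]
    refine Finset.prod_congr rfl fun σ _ => ?_
    rw [← map_pow]
    exact (hlift σ ⟨α ^ q, hBM⟩).symm
  have h1 := hfix β _ hβq
  have h2 : x β = algebraMap K L ζ ^ Fintype.card (M ≃ₐ[K] M) * β := by
    rw [hβ, map_prod]
    have : ∀ σ : M ≃ₐ[K] M, x (lift σ α) = algebraMap K L ζ * lift σ α := by
      intro σ
      rw [← hx, hxα, map_mul, (lift σ).commutes]
    rw [Finset.prod_congr rfl (fun σ _ => this σ), Finset.prod_mul_distrib, Finset.prod_const,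
      Finset.card_univ]
  rw [h1] at h2
  have h3 : algebraMap K L ζ ^ Fintype.card (M ≃ₐ[K] M) = 1 := by
    have := mul_right_cancel₀ hβ0 ((one_mul β).trans h2)
    exact this.symm
  have h4 : ζ ^ Fintype.card (M ≃ₐ[K] M) = 1 := by
    apply (algebraMap K L).injective
    rw [map_pow, h3, map_one]
  have h5 : ζ = 1 := by
    have h6 := pow_gcd_eq_one.mpr ⟨h4, hζ⟩
    rwa [hcard, pow_one] at h6
  rw [hxα, h5, map_one, one_mul]

end

theorem fixed_radical_F {F F' : IntermediateField ℚ ℂ} {L : IntermediateField F ℂ}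
    [IsGalois ℚ L] (hFF : F' ≤ F) {q n : ℕ} (hcop : n.Coprime q) (x : L ≃ₐ[F] L)
    (hx : ∀ g : L ≃+* L, (∀ y : L, (y : ℂ) ∈ F' → g y = y) → ∀ y, g (x y) = x (g y))
    (hroot : ∀ g : L ≃ₐ[ℚ] L, (∀ y : L, (y : ℂ) ∈ F' → g y = y) →
      ∀ y : L, (y : ℂ) ∈ F → (g ^ n) y = y)
    (hfix : ∀ β : L, (β : ℂ) ^ q ∈ F' → x β = β) (α : L) (hα : α ≠ 0)
    (hαF : (α : ℂ) ^ q ∈ F) {ζ : ℂ} (hζF : ζ ∈ F') (hζ : ζ ^ q = 1)
    (hxα : ((x α : L) : ℂ) = ζ * α) : x α = α := by
  let f : F' →+* L :=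
    { toFun := fun z => algebraMap F L ⟨z, hFF z.2⟩
      map_one' := by
        have : (⟨((1 : F') : ℂ), hFF (1 : F').2⟩ : F) = 1 := rfl
        rw [this, map_one]
      map_mul' := by
        intro a b
        have : (⟨((a * b : F') : ℂ), hFF (a * b : F').2⟩ : F) =
          ⟨a, hFF a.2⟩ * ⟨b, hFF b.2⟩ := rfl
        rw [this, map_mul]
      map_zero' := by
        have : (⟨((0 : F') : ℂ), hFF (0 : F').2⟩ : F) = 0 := rfl
        rw [this, map_zero]
      map_add' := by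
        intro a b
        have : (⟨((a + b : F') : ℂ), hFF (a + b : F').2⟩ : F) =
          ⟨a, hFF a.2⟩ + ⟨b, hFF b.2⟩ := rfl
        rw [this, map_add] }
  let _ : Algebra F' L := f.toAlgebra
  have hf : ∀ z : F', ((algebraMap F' L z : L) : ℂ) = z := fun z => rfl
  have : IsScalarTower ℚ F' L := IsScalarTower.of_algebraMap_eq (fun r => by
    apply Subtype.ext
    rw [hf]
    simp)
  have : IsGalois F' L := IsGalois.tower_top_of_isGalois ℚ F' L
  have hgfix : ∀ (g : L ≃ₐ[F'] L) (y : L), (y : ℂ) ∈ F' → g y = y := by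
    intro g y hy
    have h1 : y = algebraMap F' L ⟨y, hy⟩ := Subtype.ext rfl
    rw [h1, g.commutes]
  refine fixed_radical_abs (K := F') (L := L) hcop (x : L ≃+* L)
    (fun g y => hx (g : L ≃+* L) (hgfix g) y) α hα ?_ ⟨ζ, hζF⟩ (Subtype.ext hζ)
    (Subtype.ext ?_) ?_
  · intro g
    let g' : L ≃ₐ[ℚ] L := AlgEquiv.ofRingEquiv (f := (g : L ≃+* L)) (fun r => by simp)
    have h1 : ∀ (k : ℕ) (y : L), (g ^ k) y = (g' ^ k) y := by
      intro k
      induction k with
      | zero => intro y; rfl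
      | succ k ih =>
        intro y
        rw [pow_succ', pow_succ', AlgEquiv.mul_apply, AlgEquiv.mul_apply, ih]
        rfl
    rw [h1]
    exact hroot g' (hgfix g) _ hαF
  · rw [MulMemClass.coe_mul, hf]
    exact hxα
  · intro β b hb
    refine hfix β ?_
    have h1 : ((algebraMap F' L b : L) : ℂ) = (β : ℂ) ^ q := by
      rw [hb]
      rfl
    rw [← h1, hf]
    exact b.2

theorem fixed_radical {p N N' : ℕ} (hp : p.Prime) (hN : 0 < N) (hdvd : N' ∣ N)
    (hrad : ∀ l : ℕ, l.Prime → l ∣ N → l ∣ N') (hpN : ¬ p ∣ N)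
    {x : Lmax p N ≃ₐ[Qinf p N] Lmax p N}
    (hx : ∀ g : Lmax p N ≃+* Lmax p N, (∀ y : Lmax p N, (y : ℂ) ∈ Qinf p N' → g y = y) →
      ∀ y, g (x y) = x (g y))
    (hfix : ∀ y : Lmax p N, (y : ℂ) ∈ Lmax p N' → x y = y) {n : ℕ} (α : Lmax p N) (hα : α ≠ 0)
    (hαF : (α : ℂ) ^ (p ^ n) ∈ Qinf p N) : x α = α := by
  have hgal : IsGalois ℚ (Lmax p N) := Lmax_isGalois hp hN
  have hcop : Nat.Coprime N (p ^ n) :=
    Nat.Coprime.pow_right _ ((Nat.Prime.coprime_iff_not_dvd hp).mpr hpN).symm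
  obtain ⟨ζ, hζ1, hζ2⟩ := eig_of_pow hp x hα n hαF
  exact fixed_radical_F (L := Lmax p N) (Qinf_mono hdvd) hcop x hx
    (fun g hg y hy => root_fix hp hN hdvd hrad g hg y hy)
    (fun β hβ => hfix β (mem_Lmax_descent hp hN hdvd hrad hpN β.2 hβ)) α hα hαF
    (root_mem_Qinf n hζ1) hζ1 hζ2

end Pool.Agent.GP
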