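import Pool.Agent.GP.Desc.NormElt
import Pool.Agent.GP.Desc.BaseChange

/-!
# Restriction `X⁺(N) → X⁺(N')` is injective
-/

open IntermediateField NumberField

namespace Pool.Agent.GP

section

variable {F F' : IntermediateField ℚ ℂ} {L' : IntermediateField F' ℂ} {L : IntermediateField F ℂ}

/-- The restriction of an automorphism. -/
noncomputable def resHom (hsub : ∀ z : ℂ, z ∈ L' → z ∈ L)
    (hstab : ∀ (φ : L' →+* ℂ) (y : L'), φ y ∈ L') (x : L ≃+* L) : L' →+* L' where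
  toFun := fun z => ⟨(x (inclF hsub z) : L),
    hstab ((L.val : L →+* ℂ).comp ((x : L →+* L).comp (inclF hsub))) z⟩
  map_one' := by
    apply Subtype.ext
    change ((x (inclF hsub 1) : L) : ℂ) = 1
    rw [map_one, map_one]
    rfl
  map_mul' := by
    intro a b
    apply Subtype.ext
    change ((x (inclF hsub (a * b)) : L) : ℂ) = (x (inclF hsub a) : L) * (x (inclF hsub b) : L)
    rw [map_mul, map_mul]
    rfl
  map_zero' := by
    apply Subtype.ext
    change ((x (inclF hsub 0) : L) : ℂ) = 0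
    rw [map_zero, map_zero]
    rfl
  map_add' := by
    intro a b
    apply Subtype.ext
    change ((x (inclF hsub (a + b)) : L) : ℂ) = (x (inclF hsub a) : L) + (x (inclF hsub b) : L)
    rw [map_add, map_add]
    rfl

theorem inclF_resHom (hsub : ∀ z : ℂ, z ∈ L' → z ∈ L)
    (hstab : ∀ (φ : L' →+* ℂ) (y : L'), φ y ∈ L') (x : L ≃+* L) (z : L') :
    inclF hsub (resHom hsub hstab x z) = x (inclF hsub z) := rfl

theorem exists_res (hFF : F' ≤ F) (hsub : ∀ z : ℂ, z ∈ L' → z ∈ L)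
    (hstab : ∀ (φ : L' →+* ℂ) (y : L'), φ y ∈ L') (x : L ≃ₐ[F] L) :
    ∃ y : L' ≃ₐ[F'] L', ∀ z : L', inclF hsub (y z) = x (inclF hsub z) := by
  have hinj : Function.Injective (inclF hsub) := (inclF hsub).injective
  let e : L' ≃+* L' :=
    { resHom hsub hstab (x : L ≃+* L) with
      invFun := resHom hsub hstab (x.symm : L ≃+* L)
      left_inv := by
        intro z
        apply hinj
        rw [inclF_resHom]
        change x.symm (inclF hsub (resHom hsub hstab (x : L ≃+* L) z)) = _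
        rw [inclF_resHom]
        exact x.symm_apply_apply _
      right_inv := by
        intro z
        apply hinj
        change inclF hsub (resHom hsub hstab (x : L ≃+* L) _) = _
        rw [inclF_resHom, inclF_resHom]
        exact x.apply_symm_apply _ }
  have he : ∀ z : L', inclF hsub (e z) = x (inclF hsub z) := fun z => rfl
  refine ⟨AlgEquiv.ofRingEquiv (f := e) (fun r => ?_), he⟩
  apply hinj
  rw [he]
  have h1 : inclF hsub (algebraMap F' L' r) = algebraMap F L ⟨r, hFF r.2⟩ := rfl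
  rw [h1, x.commutes]

theorem exists_res' (hFF : F' ≤ F) (hsub : ∀ z : ℂ, z ∈ L' → z ∈ L)
    (hstab : ∀ (φ : L' →+* ℂ) (y : L'), φ y ∈ L') (x : L ≃ₐ[F] L) :
    ∃ y : L' ≃ₐ[F'] L', ∀ (z : L) (w : L'), (z : ℂ) = w → ((x z : L) : ℂ) = (y w : L') := by
  obtain ⟨y, hy⟩ := exists_res hFF hsub hstab x
  refine ⟨y, fun z w hzw => ?_⟩
  have h1 : z = inclF hsub w := Subtype.ext hzw
  rw [h1, ← hy w]
  exact inclF_coe _ _

end

theorem exists_res_Lmax {p N N' : ℕ} (hp : p.Prime) (hN : 0 < N) (hdvd : N' ∣ N)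
    (x : Lmax p N ≃ₐ[Qinf p N] Lmax p N) : ∃ y : Lmax p N' ≃ₐ[Qinf p N'] Lmax p N',
      ∀ (z : Lmax p N) (w : Lmax p N'), (z : ℂ) = w → ((x z : Lmax p N) : ℂ) = (y w : Lmax p N') :=
  exists_res' (Qinf_mono hdvd) (fun _ hz => Lmax_mono hp hN hdvd hz)
    (Lmax_hom_mem hp (Nat.pos_of_dvd_of_pos hdvd hN)) x

/-- An element of `Gal(L/ℚ_∞)` commuting with all automorphisms fixing `ℚ(ζ_{N' p^∞})` and fixing
`L(N')` is trivial. -/
theorem eq_one_of_fix {p N N' : ℕ} (hp : p.Prime) (hN : 0 < N) (hdvd : N' ∣ N)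
    (hrad : ∀ l : ℕ, l.Prime → l ∣ N → l ∣ N') (hpN : ¬ p ∣ N)
    {x : Lmax p N ≃ₐ[Qinf p N] Lmax p N}
    (hx : ∀ g : Lmax p N ≃+* Lmax p N, (∀ y : Lmax p N, (y : ℂ) ∈ Qinf p N' → g y = y) →
      ∀ y, g (x y) = x (g y))
    (hfix : ∀ y : Lmax p N, (y : ℂ) ∈ Lmax p N' → x y = y) : x = 1 := by
  have key : ((Lmax p N).val.comp (x : Lmax p N →ₐ[Qinf p N] Lmax p N)) = (Lmax p N).val := by
    apply Lmax_hom_ext
    intro M hM z hz
    by_contra hne
    obtain ⟨τ, hτ⟩ := exists_restrict hM x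
    have hτ1 : τ ≠ 1 := by
      intro h
      apply hne
      have h3 := hτ ⟨z, hz⟩
      rw [h] at h3
      exact h3.symm
    obtain ⟨b, hb, heig, hτb⟩ := exists_eigenvector hp hN M hM τ hτ1
    obtain ⟨n, m, B, hBb, hI⟩ := radical_of_eigenvector hp hN hM b hb heig
    let bL : Lmax p N := ⟨b, le_Lmax hM b.2⟩
    have hbL : bL ≠ 0 := fun h => hb (Subtype.ext (congrArg (fun t : Lmax p N => (t : ℂ)) h))
    have hbF : ((bL : Lmax p N) : ℂ) ^ (p ^ n) ∈ Qinf p N := by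
      change (b : ℂ) ^ (p ^ n) ∈ _
      rw [← hBb]
      exact lev_le_Qinf _ _ _ B.2
    have h6 := fixed_radical hp hN hdvd hrad hpN hx hfix bL hbL hbF
    apply hτb
    apply Subtype.ext
    rw [hτ b]
    exact congrArg (fun t : Lmax p N => (t : ℂ)) h6
  ext y
  exact DFunLike.congr_fun key y

theorem Xplus_mul {p N : ℕ} {x y : Lmax p N ≃ₐ[Qinf p N] Lmax p N} (hx : x ∈ Xplus p N)
    (hy : y ∈ Xplus p N) : x * y ∈ Xplus p N := by
  intro a b hab
  exact hx (y a) (y b) (hy a b hab)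

theorem Xplus_inv {p N : ℕ} {x : Lmax p N ≃ₐ[Qinf p N] Lmax p N} (hx : x ∈ Xplus p N) :
    x⁻¹ ∈ Xplus p N := by
  intro a b hab
  have h1 : starRingEnd ℂ ((x⁻¹ a : Lmax p N) : ℂ) ∈ Lmax p N := conj_mem_Lmax (x⁻¹ a).2
  have h2 := hx (x⁻¹ a) ⟨_, h1⟩ rfl
  have h3 : x (x⁻¹ a) = a := by
    rw [← AlgEquiv.mul_apply, mul_inv_cancel, AlgEquiv.one_apply]
  rw [h3, ← hab] at h2
  have h4 : x ⟨_, h1⟩ = b := Subtype.ext h2
  have h5 : x⁻¹ b = ⟨_, h1⟩ := by
    rw [← h4, ← AlgEquiv.mul_apply, inv_mul_cancel, AlgEquiv.one_apply]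
  rw [h5]

/-- Two elements of `X⁺(N)` with the same restriction to `L(N')` are equal. -/
theorem Xplus_res_inj {p N N' : ℕ} (hp : p.Prime) (hN : 0 < N) (hdvd : N' ∣ N)
    (hrad : ∀ l : ℕ, l.Prime → l ∣ N → l ∣ N') (hpN : ¬ p ∣ N)
    (hfix : ∀ x ∈ Xplus p N, ∀ g : Lmax p N ≃+* Lmax p N,
      (∀ y : Lmax p N, (y : ℂ) ∈ Qinf p N' → g y = y) → ∀ y, g (x y) = x (g y))
    {x₁ x₂ : Lmax p N ≃ₐ[Qinf p N] Lmax p N} (h₁ : x₁ ∈ Xplus p N) (h₂ : x₂ ∈ Xplus p N)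
    (h : ∀ y : Lmax p N, (y : ℂ) ∈ Lmax p N' → x₁ y = x₂ y) : x₁ = x₂ := by
  have h3 := Xplus_mul (Xplus_inv h₂) h₁
  have h4 : x₂⁻¹ * x₁ = 1 := by
    refine eq_one_of_fix hp hN hdvd hrad hpN (hfix _ h3) (fun y hy => ?_)
    rw [AlgEquiv.mul_apply, h y hy, ← AlgEquiv.mul_apply, inv_mul_cancel, AlgEquiv.one_apply]
  rw [inv_mul_eq_one] at h4
  exact h4.symm

end Pool.Agent.GP
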