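import Pool.Agent.GP.Galois2
import Pool.Agent.GP.Bridge

/-!
# Transport of unramified abelian extensions; `L` is normal over `ℚ`

PROOFS (helper91).
1. `IsUnramifiedAbelianP.transport`: verbatim the proof of `exists_conj` in `GP/Kummer.lean`, with
   `conjF` replaced by `eF`, `conjM` by `eM`, `hcomp` there = `hcomp` here
   (`pull σ := ((eM.trans σ).trans eM.symm)` with commutes proved from `hcomp`).
2. `Lmax_hom_mem`: `φ : L →+* ℂ`. First `φ` maps `Qinf p N` onto itself: it maps roots of unity to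
   roots of unity (so `φ (Lev M) ≤ Lev M`, cf. `ringAut_mem` in Galois2), and for each finite level
   `Lev M` it is surjective onto `Lev M` (injective + finite dimensional over ℚ), so by
   `mem_Qinf_iff` we get `eF : Qinf p N ≃+* Qinf p N`.  Let `M` be unramified abelian, `M ≤ L`
   (`le_Lmax`); `M' : IntermediateField (Qinf p N) ℂ` with carrier `φ '' M`; `eM : M ≃+* M'`.
   `transport` gives that `M'` is unramified abelian so `φ z ∈ M' ≤ L` for `z ∈ M`.  Since `L` is
   generated by the `M` (`Lmax_eq_adjoin`, adjoin induction as in `Lmax_hom_ext`), `φ y ∈ L`.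
3. `Lmax_isGalois`: `L / ℚ` is algebraic (`Qinf` is generated by roots of unity, the `M` are finite
   over it), and normal: for `y ∈ L` every complex root `z` of the minimal polynomial of `y` is
   `φ y` for some `φ : L →ₐ[ℚ] ℂ` (`L` algebraic, `ℂ` algebraically closed, e.g.
   `IntermediateField.exists_algHom_of_splits'`/`Algebra.IsAlgebraic` lifting), so `z ∈ L` by 2
   and the minimal polynomial splits in `L`.  (Look also at
   `IntermediateField.normal_iff_forall_fieldRange_le`, `Normal.of_...`.)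
-/

open IntermediateField NumberField

namespace Pool.Agent.GP

namespace TransportAux

variable {p N : ℕ} {M M' : IntermediateField (Qinf p N) ℂ}

/-- transport of an automorphism of `M'` to `M` -/
noncomputable def pull (eF : Qinf p N ≃+* Qinf p N) (eM : M ≃+* M')
    (hcomp : (algebraMap (Qinf p N) M').comp (eF : Qinf p N →+* Qinf p N) =
      (eM : M →+* M').comp (algebraMap (Qinf p N) M)) (σ : M' ≃ₐ[Qinf p N] M') :
    M ≃ₐ[Qinf p N] M :=
  { (eM.trans (σ : M' ≃+* M')).trans eM.symm with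
    commutes' := by
      intro z
      show eM.symm (σ (eM (algebraMap (Qinf p N) M z))) = algebraMap (Qinf p N) M z
      have h1 : eM (algebraMap (Qinf p N) M z) = algebraMap (Qinf p N) M' (eF z) :=
        (DFunLike.congr_fun hcomp z).symm
      rw [h1, AlgEquiv.commutes, ← h1, RingEquiv.symm_apply_apply] }

theorem conj_pull (eF : Qinf p N ≃+* Qinf p N) (eM : M ≃+* M')
    (hcomp : (algebraMap (Qinf p N) M').comp (eF : Qinf p N →+* Qinf p N) =
      (eM : M →+* M').comp (algebraMap (Qinf p N) M)) (σ : M' ≃ₐ[Qinf p N] M') (z : M) :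
    eM (pull eF eM hcomp σ z) = σ (eM z) := by
  show eM (eM.symm (σ (eM z))) = σ (eM z)
  rw [RingEquiv.apply_symm_apply]

end TransportAux

open TransportAux

theorem IsUnramifiedAbelianP.transport {p N : ℕ} {M M' : IntermediateField (Qinf p N) ℂ}
    (hM : IsUnramifiedAbelianP p M) (eF : Qinf p N ≃+* Qinf p N) (eM : M ≃+* M')
    (hcomp : (algebraMap (Qinf p N) M').comp (eF : Qinf p N →+* Qinf p N) =
      (eM : M →+* M').comp (algebraMap (Qinf p N) M)) : IsUnramifiedAbelianP p M' := by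
  have := hM.finite
  have := hM.galois
  refine ⟨?_, ?_, ?_, ?_, ?_⟩
  · exact Module.Finite.of_equiv_equiv eF eM hcomp
  · exact IsGalois.of_equiv_equiv hcomp
  · intro σ τ
    ext z
    obtain ⟨w, rfl⟩ := eM.surjective z
    rw [AlgEquiv.mul_apply, AlgEquiv.mul_apply, ← conj_pull eF eM hcomp, ← conj_pull eF eM hcomp,
      ← conj_pull eF eM hcomp, ← conj_pull eF eM hcomp, ← AlgEquiv.mul_apply,
      ← AlgEquiv.mul_apply, hM.comm]
  · obtain ⟨n, hn⟩ := hM.degree
    refine ⟨n, ?_⟩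
    rw [← hn]
    exact (Algebra.finrank_eq_of_equiv_equiv eF eM hcomp).symm
  · intro P hP σ hσ
    let e : integralClosure ℤ M ≃ₐ[ℤ] integralClosure ℤ M' :=
      eM.toIntAlgEquiv.mapIntegralClosure
    have hemax : (P.comap (e : integralClosure ℤ M ≃+* integralClosure ℤ M')).IsMaximal :=
      Ideal.comap_isMaximal_of_equiv _
    have h1 := hM.unram _ hemax (pull eF eM hcomp σ) (by
      intro x y hxy
      rw [Ideal.mem_comap, map_sub]
      refine hσ _ _ ?_
      show eM (y : M) = σ (eM (x : M))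
      rw [hxy, conj_pull])
    ext z
    obtain ⟨w, rfl⟩ := eM.surjective z
    rw [← conj_pull eF eM hcomp, h1]
    rfl

namespace TransportAux

variable {p N : ℕ}

theorem normal_Qinf (hp : p.Prime) (hN : 0 < N) :
    @Normal ℚ (Qinf p N) _ _ (IntermediateField.algebra' (Qinf p N)) := by
  rw [Qinf_eq_iSup]
  refine IntermediateField.normal_iSup (h := fun m => ?_)
  have : NeZero (N * p ^ m) := ⟨(Nat.mul_pos hN (pow_pos hp.pos _)).ne'⟩
  have := isCyclotomic_lev (N * p ^ m)
  have h : IsGalois ℚ (Lev (N * p ^ m)) := IsCyclotomicExtension.isGalois {N * p ^ m} ℚ _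
  have h2 := h.to_normal
  convert h2
  exact Subsingleton.elim _ _

/-- `φ` induces an automorphism of `ℚ_∞`. -/
theorem exists_eF (hp : p.Prime) (hN : 0 < N) (φ : Lmax p N →+* ℂ) :
    ∃ eF : Qinf p N ≃+* Qinf p N, ∀ z : Qinf p N,
      ((eF z : Qinf p N) : ℂ) = φ (algebraMap (Qinf p N) (Lmax p N) z) := by
  have := normal_Qinf hp hN
  let f : @AlgHom ℚ (Qinf p N) ℂ _ _ _ (IntermediateField.algebra' (Qinf p N)) _ :=
    { φ.comp (algebraMap (Qinf p N) (Lmax p N)) with
      commutes' := fun r => by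
        have h1 : @algebraMap ℚ (Qinf p N) _ _ (IntermediateField.algebra' (Qinf p N)) r =
          (r : Qinf p N) := eq_ratCast _ r
        show (φ.comp (algebraMap (Qinf p N) (Lmax p N))) (@algebraMap ℚ (Qinf p N) _ _
          (IntermediateField.algebra' (Qinf p N)) r) = algebraMap ℚ ℂ r
        rw [h1, map_ratCast, eq_ratCast] }
  have hr : f.fieldRange = Qinf p N := AlgHom.fieldRange_of_normal f
  have hmem : ∀ b : Qinf p N, f b ∈ Qinf p N := by
    intro b
    have h2 : f b ∈ f.fieldRange := ⟨b, rfl⟩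
    rwa [hr] at h2
  let g : Qinf p N →+* Qinf p N :=
    (φ.comp (algebraMap (Qinf p N) (Lmax p N))).codRestrict (Qinf p N) hmem
  have hg : Function.Bijective g := by
    refine ⟨g.injective, fun w => ?_⟩
    have h3 : (w : ℂ) ∈ f.fieldRange := by rw [hr]; exact w.2
    obtain ⟨z, hz⟩ := h3
    exact ⟨z, Subtype.ext hz⟩
  exact ⟨RingEquiv.ofBijective g hg, fun z => rfl⟩

/-- the image of `M` under `φ` -/
noncomputable def imageField (φ : Lmax p N →+* ℂ) (eF : Qinf p N ≃+* Qinf p N)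
    (heF : ∀ z : Qinf p N, ((eF z : Qinf p N) : ℂ) = φ (algebraMap (Qinf p N) (Lmax p N) z))
    (M : IntermediateField (Qinf p N) ℂ) : IntermediateField (Qinf p N) ℂ where
  carrier := {w | ∃ z : Lmax p N, (z : ℂ) ∈ M ∧ φ z = w}
  mul_mem' := by
    rintro _ _ ⟨x, hx, rfl⟩ ⟨y, hy, rfl⟩
    exact ⟨x * y, M.mul_mem hx hy, map_mul φ x y⟩
  add_mem' := by
    rintro _ _ ⟨x, hx, rfl⟩ ⟨y, hy, rfl⟩
    exact ⟨x + y, M.add_mem hx hy, map_add φ x y⟩
  algebraMap_mem' := by
    intro w
    refine ⟨algebraMap (Qinf p N) (Lmax p N) (eF.symm w), M.algebraMap_mem (eF.symm w), ?_⟩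
    rw [← heF, RingEquiv.apply_symm_apply]
    rfl
  inv_mem' := by
    rintro _ ⟨x, hx, rfl⟩
    exact ⟨x⁻¹, M.inv_mem hx, map_inv₀ φ x⟩

theorem image_mem (hp : p.Prime) (hN : 0 < N) (φ : Lmax p N →+* ℂ)
    {M : IntermediateField (Qinf p N) ℂ} (hM : IsUnramifiedAbelianP p M) (z : Lmax p N)
    (hz : (z : ℂ) ∈ M) : φ z ∈ Lmax p N := by
  obtain ⟨eF, heF⟩ := exists_eF hp hN φ
  let M' := imageField φ eF heF M
  let g : M →+* M' :=
    { toFun := fun w => ⟨φ ⟨w, le_Lmax hM w.2⟩, ⟨⟨w, le_Lmax hM w.2⟩, w.2, rfl⟩⟩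
      map_one' := Subtype.ext (map_one φ)
      map_mul' := fun x y => Subtype.ext
        (map_mul φ (⟨x, le_Lmax hM x.2⟩ : Lmax p N) ⟨y, le_Lmax hM y.2⟩)
      map_zero' := Subtype.ext (map_zero φ)
      map_add' := fun x y => Subtype.ext
        (map_add φ (⟨x, le_Lmax hM x.2⟩ : Lmax p N) ⟨y, le_Lmax hM y.2⟩) }
  have hg : Function.Bijective g := by
    refine ⟨g.injective, ?_⟩
    rintro ⟨_, x, hx, rfl⟩
    exact ⟨⟨x, hx⟩, rfl⟩
  let eM : M ≃+* M' := RingEquiv.ofBijective g hg
  have hcomp : (algebraMap (Qinf p N) M').comp (eF : Qinf p N →+* Qinf p N) =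
      (eM : M →+* M').comp (algebraMap (Qinf p N) M) := by
    ext w
    exact heF w
  have hM' := hM.transport eF eM hcomp
  exact le_Lmax hM' ⟨z, hz, rfl⟩

end TransportAux

theorem Lmax_hom_mem {p N : ℕ} (hp : p.Prime) (hN : 0 < N) (φ : Lmax p N →+* ℂ)
    (y : Lmax p N) : φ y ∈ Lmax p N := by
  obtain ⟨eF, heF⟩ := exists_eF hp hN φ
  have key : ∀ z : ℂ, z ∈ IntermediateField.adjoin (Qinf p N)
      {z : ℂ | ∃ M : IntermediateField (Qinf p N) ℂ, IsUnramifiedAbelianP p M ∧ z ∈ M} →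
      ∀ hz' : z ∈ Lmax p N, φ ⟨z, hz'⟩ ∈ Lmax p N := by
    intro z hz
    induction hz using IntermediateField.adjoin_induction with
    | mem x hx =>
      intro hz'
      obtain ⟨M, hM, hx⟩ := hx
      exact image_mem hp hN φ hM ⟨x, hz'⟩ hx
    | algebraMap x =>
      intro hz'
      have e : (⟨algebraMap (Qinf p N) ℂ x, hz'⟩ : Lmax p N) =
        algebraMap (Qinf p N) (Lmax p N) x := rfl
      rw [e, ← heF]
      exact Qinf_le_Lmax (eF x).2
    | add x y hx hy ihx ihy =>
      intro hz'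
      rw [← Lmax_eq_adjoin] at hx hy
      have e : (⟨x + y, hz'⟩ : Lmax p N) = ⟨x, hx⟩ + ⟨y, hy⟩ := rfl
      rw [e, map_add]
      exact add_mem (ihx hx) (ihy hy)
    | inv x hx ih =>
      intro hz'
      rw [← Lmax_eq_adjoin] at hx
      have e : (⟨x⁻¹, hz'⟩ : Lmax p N) = (⟨x, hx⟩ : Lmax p N)⁻¹ := rfl
      rw [e, map_inv₀]
      exact inv_mem (ih hx)
    | mul x y hx hy ihx ihy =>
      intro hz'
      rw [← Lmax_eq_adjoin] at hx hy
      have e : (⟨x * y, hz'⟩ : Lmax p N) = ⟨x, hx⟩ * ⟨y, hy⟩ := rfl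
      rw [e, map_mul]
      exact mul_mem (ihx hx) (ihy hy)
  have hy := y.2
  have hy' : (y : ℂ) ∈ IntermediateField.adjoin (Qinf p N)
      {z : ℂ | ∃ M : IntermediateField (Qinf p N) ℂ, IsUnramifiedAbelianP p M ∧ z ∈ M} := by
    rw [← Lmax_eq_adjoin]
    exact hy
  exact key y hy' hy

theorem Lmax_isGalois {p N : ℕ} (hp : p.Prime) (hN : 0 < N) : IsGalois ℚ (Lmax p N) := by
  have hnQ := normal_Qinf hp hN
  have hQ' := hnQ.toIsAlgebraic
  have hQ : Algebra.IsAlgebraic ℚ (Qinf p N) := by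
    have e : (DivisionRing.toRatAlgebra : Algebra ℚ (Qinf p N)) = (Qinf p N).algebra' :=
      Subsingleton.elim _ _
    rw [e]
    exact hQ'
  have hL : Algebra.IsAlgebraic (Qinf p N) (Lmax p N) := by
    rw [Lmax_eq_adjoin]
    refine IntermediateField.isAlgebraic_adjoin ?_
    rintro z ⟨M, hM, hz⟩
    have := hM.finite
    have h1 : IsIntegral (Qinf p N) (⟨z, hz⟩ : M) := Algebra.IsIntegral.isIntegral _
    exact h1.map M.val
  have hLQ : Algebra.IsAlgebraic ℚ (Lmax p N) := Algebra.IsAlgebraic.trans ℚ (Qinf p N) (Lmax p N)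
  have hnorm : Normal ℚ (Lmax p N) := by
    rw [normal_iff]
    intro y
    refine ⟨Algebra.IsIntegral.isIntegral y, ?_⟩
    have h1 : ((minpoly ℚ y).map (algebraMap ℚ ℂ)).Splits := IsAlgClosed.splits _
    have h2 := IntermediateField.splits_of_splits (F := (Lmax p N).restrictScalars ℚ) h1 (by
      intro z hz
      have h3 := Algebra.IsAlgebraic.range_eval_eq_rootSet_minpoly (F := ℚ) (K := Lmax p N)
        (A := ℂ) y
      rw [← h3] at hz
      obtain ⟨φ, rfl⟩ := hz
      exact Lmax_hom_mem hp hN (φ : Lmax p N →+* ℂ) y)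
    have e : @algebraMap ℚ (Lmax p N) _ _ DivisionRing.toRatAlgebra =
        @algebraMap ℚ ((Lmax p N).restrictScalars ℚ) _ _
          (IntermediateField.algebra' ((Lmax p N).restrictScalars ℚ)) := Subsingleton.elim _ _
    rw [← e] at h2
    exact h2
  exact { to_isSeparable := inferInstance, to_normal := hnorm }

end Pool.Agent.GP
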